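import Pool.Agent.MQV.Exm
import Pool.Agent.MPV.Conn

set_option autoImplicit false

/-!
# KQT BA : a lower bound uniform in `p`, and monotonicity in `p`

* `base`: `f z = (1-z)^(-2p)` is in `S p` for `1/4 ≤ p < 1` (`MPV.exa_cls`, `MPV.mem_S`), its
  `n`-th coefficient is `∏_{j<n} (2p + j)/(j+1) ≥ n^(2p-1)/2` (Bernoulli).
* `A_mono`: `S p ⊆ S q` for `p ≤ q < 1`.
-/

open MeasureTheory Metric Set

namespace KQT

theorem prod_low1 {t : ℝ} (h0 : 0 ≤ t) (h1 : t ≤ 1) (n : ℕ) :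
    ((n : ℝ) + 1) ^ t ≤ ∏ j ∈ Finset.range n, ((1 + t) + j) / ((j : ℝ) + 1) := by
  induction n with
  | zero => simp
  | succ n ih =>
    rw [Finset.prod_range_succ]
    have hn : (0 : ℝ) < (n : ℝ) + 1 := by positivity
    have hb := rpow_one_add_le_one_add_mul_self (s := 1 / ((n : ℝ) + 1)) (p := t)
      (by have : (0 : ℝ) ≤ 1 / ((n : ℝ) + 1) := by positivity
          linarith) h0 h1
    have e1 : ((1 + t) + (n : ℝ)) / ((n : ℝ) + 1) = 1 + t * (1 / ((n : ℝ) + 1)) := by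
      field_simp
      ring
    have e2 : (((n + 1 : ℕ) : ℝ) + 1) = ((n : ℝ) + 1) * (1 + 1 / ((n : ℝ) + 1)) := by
      push_cast
      field_simp
    rw [e1, e2, Real.mul_rpow hn.le (by positivity)]
    exact mul_le_mul ih hb (by positivity) (le_trans (by positivity) ih)

theorem prod_low2 {u : ℝ} (h0 : 0 ≤ u) (h1 : u ≤ 1 / 2) (n : ℕ) :
    1 / 2 * ((n : ℝ) + 1) ^ (-u) ≤
      ∏ j ∈ Finset.range (n + 1), ((1 - u) + j) / ((j : ℝ) + 1) := by
  induction n with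
  | zero =>
    simp
    linarith
  | succ n ih =>
    rw [Finset.prod_range_succ]
    have hn : (0 : ℝ) < (n : ℝ) + 1 := by positivity
    have hb := rpow_one_add_le_one_add_mul_self (s := -(1 / ((n : ℝ) + 2))) (p := u)
      (by have : 1 / ((n : ℝ) + 2) ≤ 1 := by
            rw [div_le_one (by positivity)]
            linarith
          linarith) h0 (by linarith)
    have e1 : ((1 - u) + ((n + 1 : ℕ) : ℝ)) / (((n + 1 : ℕ) : ℝ) + 1) =
        1 + u * (-(1 / ((n : ℝ) + 2))) := by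
      push_cast
      field_simp
      ring
    have e2 : (1 + -(1 / ((n : ℝ) + 2))) = ((n : ℝ) + 1) / ((n : ℝ) + 2) := by
      field_simp
      ring
    have e3 : (((n + 1 : ℕ) : ℝ) + 1) = (n : ℝ) + 2 := by
      push_cast
      ring
    have e4 : 1 / 2 * ((n : ℝ) + 2) ^ (-u) =
        1 / 2 * ((n : ℝ) + 1) ^ (-u) * (((n : ℝ) + 1) / ((n : ℝ) + 2)) ^ u := by
      rw [Real.div_rpow hn.le (by positivity), Real.rpow_neg hn.le, Real.rpow_neg (by positivity)]
      have : ((n : ℝ) + 1) ^ u ≠ 0 := (Real.rpow_pos_of_pos hn _).ne'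
      field_simp
    rw [e1, e3, e4]
    rw [e2] at hb
    exact mul_le_mul ih hb (by positivity) (le_trans (by positivity) ih)

theorem base {p : ℝ} (hp : 1 / 4 ≤ p) (hp1 : p < 1) {n : ℕ} (hn : 1 ≤ n) :
    ENNReal.ofReal (1 / 2 * (n : ℝ) ^ (2 * p - 1)) ≤ MPV.A p n := by
  have hp0 : 0 < p := by linarith
  have hn0 : (0 : ℝ) < n := by exact_mod_cast hn
  have hmem := MPV.mem_S hp0 hp1 (MPV.exa_cls hp0) (by simp)
  have hle : ENNReal.ofReal ‖MPV.coef (fun z => Complex.exp (-(2 * p) * Complex.log (1 - z))) n‖ ≤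
      MPV.A p n := by
    unfold MPV.A
    exact le_iSup₂ (f := fun (f : ℂ → ℂ) (_ : f ∈ MPV.S p) =>
      ENNReal.ofReal ‖MPV.coef f n‖) _ hmem
  refine le_trans (ENNReal.ofReal_le_ofReal ?_) hle
  rw [MQV.exm_coef hp0, Complex.norm_real, Real.norm_eq_abs]
  refine le_trans ?_ (le_abs_self _)
  rcases le_total (1 / 2) p with h | h
  · have h1 := prod_low1 (t := 2 * p - 1) (by linarith) (by linarith) n
    have e : ∀ j : ℕ, ((1 + (2 * p - 1)) + (j : ℝ)) = 2 * p + j := fun j => by ring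
    simp only [e] at h1
    have h2 : (n : ℝ) ^ (2 * p - 1) ≤ ((n : ℝ) + 1) ^ (2 * p - 1) :=
      Real.rpow_le_rpow hn0.le (by linarith) (by linarith)
    have h3 : 0 < (n : ℝ) ^ (2 * p - 1) := Real.rpow_pos_of_pos hn0 _
    linarith
  · obtain ⟨m, rfl⟩ : ∃ m, n = m + 1 := ⟨n - 1, by omega⟩
    have h1 := prod_low2 (u := 1 - 2 * p) (by linarith) (by linarith) m
    have e : ∀ j : ℕ, ((1 - (1 - 2 * p)) + (j : ℝ)) = 2 * p + j := fun j => by ring
    simp only [e] at h1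
    have e5 : (-(1 - 2 * p)) = 2 * p - 1 := by ring
    rw [e5] at h1
    push_cast
    exact h1

theorem A_mono {p q : ℝ} (hp : 0 < p) (hpq : p ≤ q) (hq : q < 1) (n : ℕ) :
    MPV.A p n ≤ MPV.A q n := by
  unfold MPV.A
  refine iSup₂_le fun f hf => ?_
  have hmem : f ∈ MPV.S q := by
    obtain ⟨h1, h2, h3⟩ := hf
    refine ⟨h1, fun R hR => (h2 R hR).trans (ENNReal.ofReal_le_ofReal ?_), ?_⟩
    · have := Real.pi_pos
      gcongr
    · rw [MPV.mu_eq (hp.trans_le hpq) hq, ← MPV.mu_eq hp (hpq.trans_lt hq)]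
      exact h3
  exact le_iSup₂ (f := fun (f : ℂ → ℂ) (_ : f ∈ MPV.S q) =>
    ENNReal.ofReal ‖MPV.coef f n‖) f hmem

end KQT
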