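import Pool.Agent.KQU.Su

set_option autoImplicit false

/-!
# KQT SU : `KQU.level_int` for `1/4 ≤ p` (the proof is that of `Pool/Agent/KQU/Su.lean`)
-/

open MeasureTheory Metric Set MPV

namespace KQT

/-- Cauchy-Schwarz on a set -/
private theorem cs_set (A : Set ℂ) (f : ℂ → ℝ) (hf : Measurable f) (hf0 : ∀ z, 0 ≤ f z) {M V : ℝ}
    (hM0 : 0 ≤ M) (hV0 : 0 ≤ V)
    (hM : ∫⁻ z in A, ENNReal.ofReal (f z ^ 2) ≤ ENNReal.ofReal M)
    (hV : volume A ≤ ENNReal.ofReal V) :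
    ∫⁻ z in A, ENNReal.ofReal (f z) ≤ ENNReal.ofReal (Real.sqrt M * Real.sqrt V) := by
  have h := ENNReal.lintegral_mul_le_Lp_mul_Lq (volume.restrict A)
    (p := 2) (q := 2) (Real.HolderConjugate.two_two)
    (f := fun z => ENNReal.ofReal (f z)) (g := fun _ => 1)
    hf.ennreal_ofReal.aemeasurable aemeasurable_const
  simp only [Pi.mul_apply, mul_one, ENNReal.one_rpow] at h
  rw [setLIntegral_one] at h
  refine h.trans ?_
  have e1 : ∀ z, (ENNReal.ofReal (f z)) ^ (2 : ℝ) = ENNReal.ofReal (f z ^ 2) := by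
    intro z
    rw [ENNReal.ofReal_rpow_of_nonneg (hf0 z) (by norm_num), Real.rpow_two]
  rw [lintegral_congr fun z => e1 z, ENNReal.ofReal_mul (Real.sqrt_nonneg _)]
  refine mul_le_mul' ?_ ?_
  · refine (ENNReal.rpow_le_rpow hM (by norm_num)).trans (le_of_eq ?_)
    rw [ENNReal.ofReal_rpow_of_nonneg hM0 (by norm_num), ← Real.sqrt_eq_rpow]
  · refine (ENNReal.rpow_le_rpow hV (by norm_num)).trans (le_of_eq ?_)
    rw [ENNReal.ofReal_rpow_of_nonneg hV0 (by norm_num), ← Real.sqrt_eq_rpow]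

open KQU in
private theorem Om_ball {n : ℕ} (hn : 8 ≤ n) {z : ℂ} (hz : z ∈ Om n) :
    z ∈ ball (0 : ℂ) 1 ∧ 1 - 2 / (n : ℝ) ≤ ‖z‖ := by
  have hn0 : (0 : ℝ) < n := by
    have : (8 : ℝ) ≤ n := by exact_mod_cast hn
    linarith
  obtain ⟨h1, h2⟩ := hz
  refine ⟨?_, h1.le⟩
  rw [mem_ball_zero_iff]
  have : 0 < 1 / (n : ℝ) := by positivity
  linarith

/-- the real computation of `level_int` -/
private theorem lev_real {C n j p e B : ℝ} (hC : 0 < C) (hn : 0 < n) (hp : 0 < p) :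
    Real.exp (j + 1) * (Real.sqrt e *
      Real.sqrt (C / n * Real.exp (-((j + B / 200) / (2 * p))))) =
    Real.exp 1 * Real.sqrt C / Real.sqrt n * (Real.exp (j * (1 - 1 / (4 * p))) *
        Real.sqrt e * Real.exp (-B / (800 * p))) := by
  have e1 : Real.sqrt (Real.exp (-((j + B / 200) / (2 * p))))
      = Real.exp (-(j / (4 * p))) * Real.exp (-B / (800 * p)) := by
    rw [← Real.exp_add, Real.sqrt_eq_iff_mul_self_eq (Real.exp_pos _).le (Real.exp_pos _).le,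
      ← Real.exp_add]
    congr 1
    field_simp
    ring
  have e2 : Real.exp (j + 1) * Real.exp (-(j / (4 * p)))
      = Real.exp 1 * Real.exp (j * (1 - 1 / (4 * p))) := by
    rw [← Real.exp_add, ← Real.exp_add]
    congr 1
    field_simp
    ring
  rw [Real.sqrt_mul (by positivity), e1, Real.sqrt_div hC.le]
  calc Real.exp (j + 1) * (Real.sqrt e * (Real.sqrt C / Real.sqrt n *
        (Real.exp (-(j / (4 * p))) * Real.exp (-B / (800 * p)))))
      = (Real.exp (j + 1) * Real.exp (-(j / (4 * p)))) * (Real.sqrt C / Real.sqrt n *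
        (Real.sqrt e * Real.exp (-B / (800 * p)))) := by ring
    _ = _ := by rw [e2]; ring

open KQU in
theorem level_int : ∃ C : ℝ, 0 < C ∧ ∀ p : ℝ, 1 / 4 ≤ p → p ≤ 1 → ∀ L : ℂ → ℂ, Cls p L →
    (L 0).re = 0 → ∀ n : ℕ, 8 ≤ n → ∀ j : ℕ,
      ∫⁻ z in {z | z ∈ KQU.Om n ∧ (j : ℝ) ≤ (L z).re ∧ (L z).re < j + 1},
        ENNReal.ofReal (Real.exp (L z).re * ‖deriv L z‖) ≤
      ENNReal.ofReal (C / Real.sqrt n * (Real.exp (j * (1 - 1 / (4 * p))) *
        Real.sqrt ((KQU.en L (1 - 2 / (n : ℝ)) j (j + 1)).toReal) *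
        Real.exp (-KQU.bE L (1 - 2 / (n : ℝ)) j / (800 * p)))) := by
  obtain ⟨C, hC, hdist⟩ := KQU.dist
  refine ⟨Real.exp 1 * Real.sqrt C, by positivity, ?_⟩
  intro p hp hp1 L h h0 n hn j
  have hp0 : 0 < p := by linarith
  have hn0 : (0 : ℝ) < n := by
    have : (8 : ℝ) ≤ n := by exact_mod_cast hn
    linarith
  set r : ℝ := 1 - 2 / (n : ℝ) with hr
  set A : Set ℂ := {z | z ∈ Om n ∧ (j : ℝ) ≤ (L z).re ∧ (L z).re < j + 1} with hA
  have hj0 : (0 : ℝ) ≤ j := Nat.cast_nonneg j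
  have hfin : en L r j (j + 1) ≠ ⊤ :=
    ne_top_of_le_ne_top ENNReal.ofReal_ne_top (en_le hp0 hp1 h (by linarith))
  have hen : ∫⁻ z in A, ENNReal.ofReal (‖deriv L z‖ ^ 2)
      ≤ ENNReal.ofReal ((en L r j (j + 1)).toReal) := by
    rw [ENNReal.ofReal_toReal hfin]
    unfold en
    refine lintegral_mono_set ?_
    intro z hz
    obtain ⟨h1, h2, h3⟩ := hz
    exact ⟨(Om_ball hn h1).1, (Om_ball hn h1).2, h2, h3⟩
  have hvol : volume A ≤ ENNReal.ofReal (C / n *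
        Real.exp (-(((j : ℝ) + bE L r j / 200) / (2 * p)))) := by
    refine (measure_mono ?_).trans (hdist p hp hp1 L h h0 n hn j hj0)
    intro z hz
    exact ⟨hz.1, hz.2.1⟩
  have hcs := cs_set A (fun z => ‖deriv L z‖) (measurable_deriv L).norm
    (fun z => norm_nonneg _) ENNReal.toReal_nonneg (by positivity) hen hvol
  have h1 : ∫⁻ z in A, ENNReal.ofReal (Real.exp (L z).re * ‖deriv L z‖)
      ≤ ∫⁻ z in A, ENNReal.ofReal (Real.exp ((j : ℝ) + 1)) * ENNReal.ofReal ‖deriv L z‖ := by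
    have hmA : ∀ z ∈ A, ENNReal.ofReal (Real.exp (L z).re * ‖deriv L z‖)
        ≤ ENNReal.ofReal (Real.exp ((j : ℝ) + 1)) * ENNReal.ofReal ‖deriv L z‖ := by
      intro z hz
      rw [← ENNReal.ofReal_mul (Real.exp_pos _).le]
      exact ENNReal.ofReal_le_ofReal (mul_le_mul_of_nonneg_right
        (Real.exp_le_exp.mpr hz.2.2.le) (norm_nonneg _))
    have hm : Measurable fun z => ENNReal.ofReal (Real.exp ((j : ℝ) + 1))
        * ENNReal.ofReal ‖deriv L z‖ :=
      ((measurable_deriv L).norm.ennreal_ofReal).const_mul _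
    exact setLIntegral_mono hm hmA
  refine h1.trans ?_
  rw [lintegral_const_mul _ ((measurable_deriv L).norm.ennreal_ofReal)]
  refine (mul_le_mul' le_rfl hcs).trans ?_
  rw [← ENNReal.ofReal_mul (Real.exp_pos _).le]
  refine ENNReal.ofReal_le_ofReal (le_of_eq ?_)
  exact lev_real hC hn0 hp0

end KQT
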