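import Pool.Agent.KQT.Sr
import Pool.Agent.KQT.Su
import Pool.Agent.KQT.Ba
import Pool.Agent.KQU.Fin

set_option autoImplicit false

/-!
# KQT UP : the upper bound, uniform in `p` and `n`

As `Pool/Agent/KQU/Sv.lean` and `Pool/Agent/KQU/Fin.lean`, with `J ≤ (3 + C) log n`.
-/

open MeasureTheory Metric Set MPV

namespace KQT

theorem omega_int : ∃ C : ℝ, 0 < C ∧ ∀ p : ℝ, 1 / 4 ≤ p → p ≤ 1 → ∀ L : ℂ → ℂ, Cls p L →
    (L 0).re = 0 → ∀ n : ℕ, 8 ≤ n →
      ∫⁻ z in KQU.Om n, ENNReal.ofReal (Real.exp (L z).re * ‖deriv L z‖) ≤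
        ENNReal.ofReal (C / Real.sqrt (p - 1 / 4 + 1 / Real.log n) * (n : ℝ) ^ (2 * p - 1)) := by
  obtain ⟨C1, hC1, H1⟩ := level_int
  obtain ⟨C2, hC2, H2⟩ := KQU.zero_int
  obtain ⟨C3, hC3, H3⟩ := KQU.top_level
  obtain ⟨C4, hC4, H4⟩ := sum_real
  have hq3 : 0 < Real.sqrt (3 + C3) := Real.sqrt_pos.2 (by linarith)
  refine ⟨2 * C2 + C1 * C4 * Real.sqrt (3 + C3) * Real.exp (C3 + 1), by positivity,
    fun p hp hp1 L hL hL0 n hn => ?_⟩
  have hp0 : 0 < p := by linarith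
  have hn0 : (0 : ℝ) < n := by
    have : 0 < n := by omega
    exact_mod_cast this
  have hn1 : (1 : ℝ) ≤ n := by
    have : 1 ≤ n := by omega
    exact_mod_cast this
  have hn8 : (8 : ℝ) ≤ n := by exact_mod_cast hn
  obtain ⟨r, hr⟩ : ∃ r : ℝ, r = 1 - 2 / (n : ℝ) := ⟨_, rfl⟩
  obtain ⟨b, hb⟩ : ∃ b : ℕ → ℝ, b = fun j : ℕ => (KQU.en L r j (j + 1)).toReal := ⟨_, rfl⟩
  obtain ⟨c, hc⟩ : ∃ c : ℝ, c = 1 - 1 / (4 * p) := ⟨_, rfl⟩
  obtain ⟨G, hG⟩ : ∃ G : ℂ → ENNReal, G = fun z =>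
    ENNReal.ofReal (Real.exp (L z).re * ‖deriv L z‖) := ⟨_, rfl⟩
  obtain ⟨J, hJ⟩ : ∃ J : ℕ, J = ⌊2 * p * Real.log n + C3⌋₊ + 1 := ⟨_, rfl⟩
  have hlog1 : 1 ≤ Real.log n := by
    rw [Real.le_log_iff_exp_le hn0]
    have := Real.exp_one_lt_d9
    linarith
  have hlog : 0 ≤ Real.log n := by linarith
  have hcov : KQU.Om n ⊆ {z | z ∈ KQU.Om n ∧ (L z).re < 0} ∪
      ⋃ j : Fin J, {z | z ∈ KQU.Om n ∧ ((j : ℕ) : ℝ) ≤ (L z).re ∧ (L z).re < (j : ℕ) + 1} := by
    intro z hz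
    rcases lt_or_ge (L z).re 0 with h0 | h0
    · exact Or.inl ⟨hz, h0⟩
    · refine Or.inr (mem_iUnion.2 ⟨⟨⌊(L z).re⌋₊, ?_⟩, hz, Nat.floor_le h0, Nat.lt_floor_add_one _⟩)
      have h1 := Nat.floor_le_floor (H3 p hp hp1 L hL hL0 n hn z hz)
      omega
  obtain ⟨s, hs⟩ : ∃ s : ℝ, s = p - 1 / 4 + 1 / Real.log n := ⟨_, rfl⟩
  have hil : 0 < 1 / Real.log n := by positivity
  have hil1 : 1 / Real.log n ≤ 1 := by
    rw [div_le_one (by linarith)]
    exact hlog1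
  have hsp : 0 < s := by linarith
  have hs0 : 0 < Real.sqrt s := Real.sqrt_pos.2 hsp
  have hs2 : Real.sqrt s ≤ 2 := by
    rw [Real.sqrt_le_left (by norm_num)]
    linarith
  have hJ1 : (J : ℝ) ≤ 2 * p * Real.log n + C3 + 1 := by
    have h1 := Nat.floor_le (show 0 ≤ 2 * p * Real.log n + C3 by positivity)
    rw [hJ]
    push_cast
    linarith
  have hJpos : 1 ≤ J := by omega
  have hJ0 : (0 : ℝ) < J := by
    have : 0 < J := by omega
    exact_mod_cast this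
  have hJ2 : (J : ℝ) ≤ (3 + C3) * Real.log n := by nlinarith
  have hsJ : s / (3 + C3) ≤ p - 1 / 4 + 1 / J := by
    have h1 : 1 / ((3 + C3) * Real.log n) ≤ 1 / (J : ℝ) := one_div_le_one_div_of_le hJ0 hJ2
    have h2 : s / (3 + C3) = (p - 1 / 4) / (3 + C3) + 1 / ((3 + C3) * Real.log n) := by
      rw [hs]
      field_simp
    have h3 : (p - 1 / 4) / (3 + C3) ≤ p - 1 / 4 := div_le_self (by linarith) (by linarith)
    linarith
  have hsq : C4 / Real.sqrt (p - 1 / 4 + 1 / J) ≤ C4 * Real.sqrt (3 + C3) / Real.sqrt s := by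
    have h1 : Real.sqrt (s / (3 + C3)) ≤ Real.sqrt (p - 1 / 4 + 1 / J) := Real.sqrt_le_sqrt hsJ
    rw [Real.sqrt_div hsp.le] at h1
    have h2 : 0 < Real.sqrt s / Real.sqrt (3 + C3) := by positivity
    calc C4 / Real.sqrt (p - 1 / 4 + 1 / J) ≤ C4 / (Real.sqrt s / Real.sqrt (3 + C3)) := by
          gcongr
      _ = C4 * Real.sqrt (3 + C3) / Real.sqrt s := by field_simp
  have hsum : ∑ j ∈ Finset.range J, Real.exp (j * c) * Real.sqrt (b j) *
      Real.exp (-KQU.bE L r j / (800 * p)) ≤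
        C4 * Real.sqrt (3 + C3) / Real.sqrt s * Real.exp (J * c) := by
    have h1 := H4 p hp hp1 b (fun j => by rw [hb]; exact ENNReal.toReal_nonneg)
      (fun j => by rw [hb]; exact KQU.b_le hp0 hp1 hL r j) J hJpos
    rw [← hc] at h1
    refine le_trans (le_of_eq (Finset.sum_congr rfl fun j _ => ?_))
      (h1.trans (mul_le_mul_of_nonneg_right hsq (Real.exp_pos _).le))
    rw [hb, KQU.sum_bE hp0 hp1 hL r j]
  have hcpos : 0 ≤ c := by
    rw [hc, sub_nonneg, div_le_one (by positivity)]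
    linarith
  have hc1 : c ≤ 1 := by
    have : 0 ≤ 1 / (4 * p) := by positivity
    rw [hc]
    linarith
  have hexp : Real.exp (J * c) ≤ Real.exp (C3 + 1) * (n : ℝ) ^ (2 * p - 1 / 2) := by
    rw [Real.rpow_def_of_pos hn0, ← Real.exp_add]
    refine Real.exp_le_exp.2 ?_
    have h1 : (J : ℝ) * c ≤ (2 * p * Real.log n + C3 + 1) * c :=
      mul_le_mul_of_nonneg_right hJ1 hcpos
    have h2 : 2 * p * Real.log n * c = Real.log n * (2 * p - 1 / 2) := by
      rw [hc]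
      field_simp
      ring
    have h3 : (C3 + 1) * c ≤ C3 + 1 := by nlinarith
    nlinarith
  have hsn : Real.sqrt n = (n : ℝ) ^ (1 / 2 : ℝ) := Real.sqrt_eq_rpow _
  have hsn0 : 0 < Real.sqrt n := Real.sqrt_pos.2 hn0
  have hq : (n : ℝ) ^ (2 * p - 1 / 2) / Real.sqrt n = (n : ℝ) ^ (2 * p - 1) := by
    rw [hsn, ← Real.rpow_sub hn0]
    congr 1
    ring
  have hq2 : 1 / Real.sqrt n ≤ (n : ℝ) ^ (2 * p - 1) := by
    rw [hsn, one_div, ← Real.rpow_neg hn0.le]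
    exact Real.rpow_le_rpow_of_exponent_le hn1 (by linarith)
  have hP : 0 < (n : ℝ) ^ (2 * p - 1) := Real.rpow_pos_of_pos hn0 _
  rw [← hs]
  have hreal : C2 / Real.sqrt n + ∑ j ∈ Finset.range J, C1 / Real.sqrt n *
      (Real.exp (j * c) * Real.sqrt (b j) * Real.exp (-KQU.bE L r j / (800 * p))) ≤
      (2 * C2 + C1 * C4 * Real.sqrt (3 + C3) * Real.exp (C3 + 1)) / Real.sqrt s *
        (n : ℝ) ^ (2 * p - 1) := by
    rw [← Finset.mul_sum]
    have h1 : C1 / Real.sqrt n * ∑ j ∈ Finset.range J, Real.exp (j * c) * Real.sqrt (b j) *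
        Real.exp (-KQU.bE L r j / (800 * p)) ≤
        C1 / Real.sqrt n * (C4 * Real.sqrt (3 + C3) / Real.sqrt s *
          (Real.exp (C3 + 1) * (n : ℝ) ^ (2 * p - 1 / 2))) := by
      refine mul_le_mul_of_nonneg_left (hsum.trans ?_) (by positivity)
      exact mul_le_mul_of_nonneg_left hexp (by positivity)
    have h2 : C1 / Real.sqrt n * (C4 * Real.sqrt (3 + C3) / Real.sqrt s *
          (Real.exp (C3 + 1) * (n : ℝ) ^ (2 * p - 1 / 2))) =
        C1 * C4 * Real.sqrt (3 + C3) * Real.exp (C3 + 1) / Real.sqrt s *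
          ((n : ℝ) ^ (2 * p - 1 / 2) / Real.sqrt n) := by
      field_simp
    have h3 : C2 / Real.sqrt n ≤ 2 * C2 / Real.sqrt s * (n : ℝ) ^ (2 * p - 1) := by
      have h5 : C2 ≤ 2 * C2 / Real.sqrt s := by
        rw [le_div_iff₀ hs0]
        nlinarith
      calc C2 / Real.sqrt n = C2 * (1 / Real.sqrt n) := by ring
        _ ≤ 2 * C2 / Real.sqrt s * (n : ℝ) ^ (2 * p - 1) :=
          mul_le_mul h5 hq2 (by positivity) (by positivity)
    rw [h2, hq] at h1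
    have h4 : (2 * C2 + C1 * C4 * Real.sqrt (3 + C3) * Real.exp (C3 + 1)) / Real.sqrt s *
        (n : ℝ) ^ (2 * p - 1) =
        2 * C2 / Real.sqrt s * (n : ℝ) ^ (2 * p - 1) +
        C1 * C4 * Real.sqrt (3 + C3) * Real.exp (C3 + 1) / Real.sqrt s *
          (n : ℝ) ^ (2 * p - 1) := by ring
    rw [h4]
    exact add_le_add h3 h1
  calc ∫⁻ z in KQU.Om n, ENNReal.ofReal (Real.exp (L z).re * ‖deriv L z‖) =
      ∫⁻ z in KQU.Om n, G z := by rw [hG]
    _ ≤ ∫⁻ z in {z | z ∈ KQU.Om n ∧ (L z).re < 0} ∪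
      ⋃ j : Fin J, {z | z ∈ KQU.Om n ∧ ((j : ℕ) : ℝ) ≤ (L z).re ∧ (L z).re < (j : ℕ) + 1}, G z :=
        lintegral_mono_set hcov
    _ ≤ (∫⁻ z in {z | z ∈ KQU.Om n ∧ (L z).re < 0}, G z) +
        ∫⁻ z in ⋃ j : Fin J, {z | z ∈ KQU.Om n ∧ ((j : ℕ) : ℝ) ≤ (L z).re ∧
          (L z).re < (j : ℕ) + 1}, G z := lintegral_union_le _ _ _
    _ ≤ ENNReal.ofReal (C2 / Real.sqrt n) + ∑ j ∈ Finset.range J,
        ENNReal.ofReal (C1 / Real.sqrt n *
          (Real.exp (j * c) * Real.sqrt (b j) * Real.exp (-KQU.bE L r j / (800 * p)))) := by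
        rw [hG]
        refine add_le_add (H2 p hp0 hp1 L hL n hn) ?_
        refine (lintegral_iUnion_le _ _).trans ?_
        rw [tsum_fintype, Finset.sum_range]
        refine Finset.sum_le_sum fun j _ => ?_
        have h1 := H1 p hp hp1 L hL hL0 n hn (j : ℕ)
        rw [← hr, ← hc] at h1
        rw [hb]
        exact h1
    _ = ENNReal.ofReal (C2 / Real.sqrt n + ∑ j ∈ Finset.range J, C1 / Real.sqrt n *
          (Real.exp (j * c) * Real.sqrt (b j) * Real.exp (-KQU.bE L r j / (800 * p)))) := by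
        rw [ENNReal.ofReal_add (by positivity) (Finset.sum_nonneg fun j _ => by positivity),
          ENNReal.ofReal_sum_of_nonneg fun j _ => by positivity]
    _ ≤ _ := ENNReal.ofReal_le_ofReal hreal

theorem upper8 : ∃ C : ℝ, 0 < C ∧ ∀ p : ℝ, 1 / 4 ≤ p → p < 1 → ∀ n : ℕ, 8 ≤ n →
    MPV.A p n ≤ ENNReal.ofReal
      (C / Real.sqrt (p - 1 / 4 + 1 / Real.log n) * (n : ℝ) ^ (2 * p - 1)) := by
  obtain ⟨C, hC, H⟩ := omega_int
  refine ⟨4 * C, by positivity, fun p hp hp1 n hn => ?_⟩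
  refine iSup₂_le fun f hf => ?_
  obtain ⟨L, hL, hfL, hL0⟩ := exists_cls (by linarith : (0:ℝ) < p) hp1 hf
  have h1 := KQU.coef_Om hf.1 hn
  have hsub : KQU.Om n ⊆ ball (0 : ℂ) 1 := by
    intro z hz
    rw [mem_ball_zero_iff]
    have h2 : (0 : ℝ) ≤ 1 / (n : ℝ) := by positivity
    linarith [hz.2]
  have hm : MeasurableSet (KQU.Om n) :=
    ((isOpen_lt continuous_const continuous_norm).inter
      (isOpen_lt continuous_norm continuous_const)).measurableSet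
  have h3 : ∫⁻ z in KQU.Om n, ENNReal.ofReal ‖deriv f z‖ =
      ∫⁻ z in KQU.Om n, ENNReal.ofReal (Real.exp (L z).re * ‖deriv L z‖) := by
    refine setLIntegral_congr_fun hm fun z hz => ?_
    have hzb := hsub hz
    have h4 : deriv f z = Complex.exp (L z) * deriv L z := by
      have h5 : f =ᶠ[nhds z] fun y => Complex.exp (L y) :=
        Filter.eventually_of_mem (isOpen_ball.mem_nhds hzb) fun y hy => hfL y hy
      rw [h5.deriv_eq]
      exact ((hL.diff.differentiableAt (isOpen_ball.mem_nhds hzb)).hasDerivAt.cexp).deriv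
    show ENNReal.ofReal ‖deriv f z‖ = ENNReal.ofReal (Real.exp (L z).re * ‖deriv L z‖)
    rw [h4, norm_mul, Complex.norm_exp]
  rw [h3] at h1
  refine h1.trans ((mul_le_mul_right (H p hp hp1.le L hL hL0 n hn) 4).trans (le_of_eq ?_))
  rw [show (4 : ENNReal) = ENNReal.ofReal 4 by norm_num, ← ENNReal.ofReal_mul (by norm_num)]
  congr 1
  ring

theorem upper : ∃ C : ℝ, 0 < C ∧ ∀ p : ℝ, 1 / 4 ≤ p → p < 1 → ∀ n : ℕ, 2 ≤ n →
    MPV.A p n ≤ ENNReal.ofReal
      (C / Real.sqrt (p - 1 / 4 + 1 / Real.log n) * (n : ℝ) ^ (2 * p - 1)) := by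
  obtain ⟨C, hC, H⟩ := upper8
  refine ⟨C + 4800, by positivity, fun p hp hp1 n hn => ?_⟩
  have hn0 : (0 : ℝ) < n := by
    have : 0 < n := by omega
    exact_mod_cast this
  have hn1 : (1 : ℝ) ≤ n := by
    have : 1 ≤ n := by omega
    exact_mod_cast this
  have hn2 : (2 : ℝ) ≤ n := by exact_mod_cast hn
  have hlog : 1 / 2 ≤ Real.log n := by
    have h1 := Real.log_two_gt_d9
    have h2 := Real.log_le_log (by norm_num : (0 : ℝ) < 2) hn2
    linarith
  have hil : 0 < 1 / Real.log n := by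
    have : 0 < Real.log n := by linarith
    positivity
  have hil2 : 1 / Real.log n ≤ 2 := by
    rw [div_le_iff₀ (by linarith)]
    linarith
  have hs0 : 0 < Real.sqrt (p - 1 / 4 + 1 / Real.log n) := Real.sqrt_pos.2 (by linarith)
  have hs1 : Real.sqrt (p - 1 / 4 + 1 / Real.log n) ≤ 2 := by
    rw [Real.sqrt_le_left (by norm_num)]
    linarith
  have hP : 0 < (n : ℝ) ^ (2 * p - 1) := Real.rpow_pos_of_pos hn0 _
  rcases le_or_gt 8 n with h8 | h8
  · refine (H p hp hp1 n h8).trans (ENNReal.ofReal_le_ofReal ?_)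
    gcongr
    linarith
  · have hsm := (A_mono (p := p) (q := (p + 1) / 2) (by linarith) (by linarith) (by linarith) n).trans
      (KQU.small (p := (p + 1) / 2) (by linarith) (by linarith) (by omega : 1 ≤ n) (by omega))
    refine hsm.trans (ENNReal.ofReal_le_ofReal ?_)
    have h9 : (n : ℝ) ≤ 9 := by
      have : n ≤ 9 := by omega
      exact_mod_cast this
    have h1 : (1 : ℝ) / 3 ≤ (n : ℝ) ^ (2 * p - 1) := by
      calc (1 : ℝ) / 3 = (9 : ℝ) ^ (-(1 / 2) : ℝ) := by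
            rw [Real.rpow_neg (by norm_num), ← Real.sqrt_eq_rpow,
              show (9 : ℝ) = 3 ^ 2 by norm_num, Real.sqrt_sq (by norm_num)]
            norm_num
        _ ≤ (n : ℝ) ^ (-(1 / 2) : ℝ) :=
            Real.rpow_le_rpow_of_nonpos hn0 h9 (by norm_num)
        _ ≤ (n : ℝ) ^ (2 * p - 1) := Real.rpow_le_rpow_of_exponent_le hn1 (by linarith)
    have h2 : (C + 4800) / 2 ≤ (C + 4800) / Real.sqrt (p - 1 / 4 + 1 / Real.log n) := by
      gcongr
    calc (800 : ℝ) ≤ (C + 4800) / 2 * (1 / 3) := by linarith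
      _ ≤ (C + 4800) / Real.sqrt (p - 1 / 4 + 1 / Real.log n) * (n : ℝ) ^ (2 * p - 1) :=
        mul_le_mul h2 h1 (by norm_num) (by positivity)

end KQT
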