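import Pool.Agent.KQT.Lo
import Pool.Agent.KQT.Up

set_option autoImplicit false

/-! # KQT FIN : the two-sided uniform estimate -/

namespace KQT

theorem final : ∃ c C : ℝ, 0 < c ∧ 0 < C ∧ ∀ p : ℝ, 1 / 4 ≤ p → p < 1 → ∀ n : ℕ, 2 ≤ n →
    ENNReal.ofReal (c / Real.sqrt (p - 1 / 4 + 1 / Real.log n) * (n : ℝ) ^ (2 * p - 1)) ≤
      MPV.A p n ∧
    MPV.A p n ≤
      ENNReal.ofReal (C / Real.sqrt (p - 1 / 4 + 1 / Real.log n) * (n : ℝ) ^ (2 * p - 1)) := by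
  obtain ⟨c, hc, h1⟩ := lower
  obtain ⟨C, hC, h2⟩ := upper
  exact ⟨c, C, hc, hC, fun p hp hp1 n hn => ⟨h1 p hp hp1 n hn, h2 p hp hp1 n hn⟩⟩

end KQT
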