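import Pool.Agent.KQT.Ff
import Pool.Agent.KQB.Ar

set_option autoImplicit false

/-!
# KQT AR : the area of `G2`

`a = 1/2 - 2δ`, `dl = 7 ε √(2^(-k0)) ≤ δ/200`, `η = δ/12800` (`KQB.Par`).  If `‖G2 u‖ < R` then
`(1 - dl) ‖u‖^(-a) < R` (`gg_bd2`), i.e. `‖u‖ > y` with `y^(-a) = R/(1-dl)`.  Polar coordinates
(`KQB.polar`), `‖G2'‖² ≤ ‖F2'‖² + 2‖F2'‖‖gg'‖ + ‖gg'‖²`, `‖F2'‖ ≤ ‖F2‖/x` (and `= a‖F2‖/x`), `gg_der2`:
`x ‖G2'‖² ≤ a² x^(-2a-1) + x^(-2a) (2 b e^{-x cos φ/2} + x b² e^{-x cos φ})`.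
Integrate over `φ` first (`KQB.ang`: `∫ e^{-t cos φ} dφ ≤ π/t`):
`≤ π a² x^(-2a-1) + π x^(-2a-1) (4b + b² x) ≤ π (a² + η) x^(-2a-1)`, then over `x > y`:
`π (a² + η) y^(-2a)/(2a) = π (a² + η)/(2a) R²/(1-dl)² ≤ π R²/4`, because
`(a² + η)/(2a) ≤ 1/4 - δ + δ/12000` (`a ≥ 0.48`) and `(1-dl)^(-2) ≤ 1 + 3 dl ≤ 1 + 3δ/200`.
(Compare `Pool/Agent/KQB/Ar.lean`, `extra` and `tail`.)
-/

open MeasureTheory Metric Set

namespace KQT

/-- the density in polar coordinates -/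
private noncomputable def LL (a : ℝ) (b : ℝ → ℝ) (x φ : ℝ) : ℝ :=
  a ^ 2 * x ^ (-(2 * a) - 1) + x ^ (-(2 * a)) * (2 * b x) * Real.exp (-(x / 2 * Real.cos φ)) +
    x ^ (-(2 * a)) * (x * b x ^ 2) * Real.exp (-(x * Real.cos φ))

private theorem point2 {ε δ : ℝ} {k0 k1 : ℕ} (h : KQB.Par ε δ k0 k1) {b : ℝ → ℝ}
    (hb0 : ∀ x, 0 < x → 0 ≤ b x)
    (hb : ∀ u : ℂ, 0 < u.re → ‖deriv (KQB.gg ε 0 k0 k1) u‖ ≤
        b ‖u‖ * Real.exp (-(u.re / 2)) * ‖F2 δ u‖) {x φ : ℝ} (hx : 0 < x)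
    (hφ : |φ| < Real.pi / 2) :
    x * ‖deriv (G2 ε δ k0 k1) (KQB.pt x φ)‖ ^ 2 ≤ LL (1 / 2 - 2 * δ) b x φ := by
  have hc : 0 < Real.cos φ := Real.cos_pos_of_mem_Ioo ⟨by linarith [(abs_lt.1 hφ).1], (abs_lt.1 hφ).2⟩
  have hu : 0 < (KQB.pt x φ).re := by
    rw [KQB.pt_re]
    positivity
  have hδ8 : δ ≤ 1 / 8 := by linarith [h.he1]
  have hδ0 := h.he
  have hop : IsOpen {u : ℂ | 0 < u.re} := isOpen_lt continuous_const Complex.continuous_re
  have hd1 : DifferentiableAt ℂ (F2 δ) (KQB.pt x φ) :=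
    (F2_diff δ).differentiableAt (hop.mem_nhds hu)
  have hd2 : DifferentiableAt ℂ (KQB.gg ε 0 k0 k1) (KQB.pt x φ) :=
    (KQB.gg_diff ε 0 k0 k1).differentiableAt (hop.mem_nhds hu)
  have hder : deriv (G2 ε δ k0 k1) (KQB.pt x φ) = deriv (F2 δ) (KQB.pt x φ) +
      deriv (KQB.gg ε 0 k0 k1) (KQB.pt x φ) := by
    have : G2 ε δ k0 k1 = F2 δ + KQB.gg ε 0 k0 k1 := rfl
    rw [this, deriv_add hd1 hd2]
  have h1 := F2_der hδ8 hu
  have h2 := F2_norm δ hu
  have h3 := hb _ hu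
  rw [KQB.pt_norm hx.le] at h1 h2 h3
  rw [KQB.pt_re] at h3
  rw [h2] at h1 h3
  rw [hder]
  have hb0' := hb0 x hx
  set a : ℝ := 1 / 2 - 2 * δ with ha
  have ha0 : 0 ≤ a := by linarith
  have ha1 : a ≤ 1 := by linarith
  have hW : 0 < x ^ (-a) := Real.rpow_pos_of_pos hx _
  have hW2 : x ^ (-(2 * a)) = (x ^ (-a)) ^ 2 := by
    rw [← Real.rpow_natCast, ← Real.rpow_mul hx.le]
    congr 1
    push_cast
    ring
  have hW3 : x ^ (-(2 * a) - 1) = (x ^ (-a)) ^ 2 / x := by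
    rw [Real.rpow_sub_one hx.ne', hW2]
  set W := x ^ (-a) with hWd
  set A := ‖deriv (F2 δ) (KQB.pt x φ)‖ with hA
  set B := ‖deriv (KQB.gg ε 0 k0 k1) (KQB.pt x φ)‖ with hB
  have hA0 : 0 ≤ A := norm_nonneg _
  have hB0 : 0 ≤ B := norm_nonneg _
  have h5 : ‖deriv (F2 δ) (KQB.pt x φ) + deriv (KQB.gg ε 0 k0 k1) (KQB.pt x φ)‖ ^ 2 ≤
      (A + B) ^ 2 := by
    gcongr
    exact norm_add_le _ _
  have hE : Real.exp (-(x * Real.cos φ / 2)) = Real.exp (-(x / 2 * Real.cos φ)) := by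
    congr 1
    ring
  have hE2 : Real.exp (-(x * Real.cos φ / 2)) ^ 2 = Real.exp (-(x * Real.cos φ)) := by
    rw [← Real.exp_nat_mul]
    congr 1
    push_cast
    ring
  have h6 : x * A ^ 2 = a ^ 2 * (W ^ 2 / x) := by
    rw [h1]
    field_simp
  have h7 : x * (2 * A * B) ≤ W ^ 2 * (2 * b x) * Real.exp (-(x / 2 * Real.cos φ)) := by
    have h71 : 2 * A * B ≤ 2 * (1 * W / x) * (b x * Real.exp (-(x * Real.cos φ / 2)) * W) := by
      rw [h1]
      gcongr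
    have h72 : x * (2 * A * B) ≤
        x * (2 * (1 * W / x) * (b x * Real.exp (-(x * Real.cos φ / 2)) * W)) := by gcongr
    have h73 : x * (2 * (1 * W / x) * (b x * Real.exp (-(x * Real.cos φ / 2)) * W)) =
        W ^ 2 * (2 * b x) * Real.exp (-(x * Real.cos φ / 2)) := by
      field_simp
    rw [← hE]
    linarith
  have h8 : x * B ^ 2 ≤ W ^ 2 * (x * b x ^ 2) * Real.exp (-(x * Real.cos φ)) := by
    have h81 : B ^ 2 ≤ (b x * Real.exp (-(x * Real.cos φ / 2)) * W) ^ 2 := by gcongr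
    have h82 : (b x * Real.exp (-(x * Real.cos φ / 2)) * W) ^ 2 =
        b x ^ 2 * Real.exp (-(x * Real.cos φ)) * W ^ 2 := by
      rw [← hE2]
      ring
    have h84 : x * B ^ 2 ≤ x * (b x ^ 2 * Real.exp (-(x * Real.cos φ)) * W ^ 2) := by
      gcongr
      linarith
    linarith
  unfold LL
  rw [hW2, hW3]
  have h9 : x * ‖deriv (F2 δ) (KQB.pt x φ) + deriv (KQB.gg ε 0 k0 k1) (KQB.pt x φ)‖ ^ 2 ≤
      x * (A + B) ^ 2 := by gcongr
  have h10 : x * (A + B) ^ 2 = x * A ^ 2 + x * (2 * A * B) + x * B ^ 2 := by ring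
  linarith

/-- integral of `x^(-2a-1)` -/
private theorem tail2 {y c a : ℝ} (hy : 0 < y) (hc : 0 ≤ c) (ha : 0 < a) :
    ∫⁻ x in Ioi y, ENNReal.ofReal (c * x ^ (-(2 * a) - 1)) =
      ENNReal.ofReal (c * (y ^ (-(2 * a)) / (2 * a))) := by
  have h1 : IntegrableOn (fun x : ℝ => x ^ (-(2 * a) - 1)) (Ioi y) :=
    integrableOn_Ioi_rpow_of_lt (by linarith) hy
  have h2 := integral_Ioi_rpow_of_lt (a := -(2 * a) - 1) (by linarith) hy
  rw [← ofReal_integral_eq_lintegral_ofReal (h1.const_mul _)]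
  · congr 1
    rw [integral_const_mul, h2]
    have e1 : (-(2 * a) - 1 + 1 : ℝ) = -(2 * a) := by ring
    rw [e1]
    congr 1
    rw [neg_div_neg_eq]
  · filter_upwards [ae_restrict_mem measurableSet_Ioi] with x hx
    have hx0 : 0 < x := hy.trans hx
    positivity

private theorem swap2 {b : ℝ → ℝ} (hbm : Measurable b) (hb0 : ∀ x, 0 < x → 0 ≤ b x) {η a : ℝ}
    (ha : 0 < a) (hη : ∀ x, 0 < x → 4 * b x + b x ^ 2 * x ≤ η) {y : ℝ} (hy : 0 < y) :
    ∫⁻ φ in Ioo (-(Real.pi / 2)) (Real.pi / 2), ∫⁻ x in Ioi y,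
      ENNReal.ofReal (LL a b x φ) ≤
    ENNReal.ofReal (Real.pi * (a ^ 2 + η) * (y ^ (-(2 * a)) / (2 * a))) := by
  have hpi := Real.pi_pos
  have hη0 : 0 ≤ η := by
    have h1 := hη 1 one_pos
    have h2 := hb0 1 one_pos
    nlinarith
  have hmK : Measurable (Function.uncurry fun φ x => ENNReal.ofReal (LL a b x φ)) := by
    unfold LL Function.uncurry
    have h2 : Measurable fun q : ℝ × ℝ => b q.2 := hbm.comp measurable_snd
    fun_prop
  rw [lintegral_lintegral_swap hmK.aemeasurable, ← tail2 hy (by positivity) ha]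
  refine setLIntegral_mono' measurableSet_Ioi fun x hx => ?_
  have hx0 : 0 < x := hy.trans hx
  have hb := hb0 x hx0
  have hb1 := hη x hx0
  have hP : 0 < x ^ (-(2 * a)) := Real.rpow_pos_of_pos hx0 _
  have hP1 : x ^ (-(2 * a) - 1) = x ^ (-(2 * a)) / x := Real.rpow_sub_one hx0.ne' _
  have s1 : ∀ φ : ℝ, ENNReal.ofReal (LL a b x φ) =
      ENNReal.ofReal (a ^ 2 * (x ^ (-(2 * a)) / x)) +
        ENNReal.ofReal (x ^ (-(2 * a)) * (2 * b x)) *
          ENNReal.ofReal (Real.exp (-(x / 2 * Real.cos φ))) +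
        ENNReal.ofReal (x ^ (-(2 * a)) * (x * b x ^ 2)) *
          ENNReal.ofReal (Real.exp (-(x * Real.cos φ))) := by
    intro φ
    unfold LL
    rw [hP1, ENNReal.ofReal_add (by positivity) (by positivity),
      ENNReal.ofReal_add (by positivity) (by positivity),
      ENNReal.ofReal_mul (p := x ^ (-(2 * a)) * (2 * b x)) (by positivity),
      ENNReal.ofReal_mul (p := x ^ (-(2 * a)) * (x * b x ^ 2)) (by positivity)]
  simp only [s1]
  rw [lintegral_add_left (by fun_prop), lintegral_add_left (by fun_prop),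
    lintegral_const_mul _ (by fun_prop), lintegral_const_mul _ (by fun_prop), setLIntegral_const,
    Real.volume_Ioo]
  have a1 := KQB.ang (t := x / 2) (by positivity)
  have a2 := KQB.ang (t := x) hx0
  calc _ ≤ ENNReal.ofReal (a ^ 2 * (x ^ (-(2 * a)) / x)) *
        ENNReal.ofReal (Real.pi / 2 - -(Real.pi / 2)) +
        ENNReal.ofReal (x ^ (-(2 * a)) * (2 * b x)) * ENNReal.ofReal (Real.pi / (x / 2)) +
        ENNReal.ofReal (x ^ (-(2 * a)) * (x * b x ^ 2)) * ENNReal.ofReal (Real.pi / x) := by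
        gcongr
    _ = ENNReal.ofReal (Real.pi * (x ^ (-(2 * a)) / x) *
          (a ^ 2 + (4 * b x + b x ^ 2 * x))) := by
        have e1 : Real.pi / 2 - -(Real.pi / 2) = Real.pi := by ring
        rw [e1, ← ENNReal.ofReal_mul (by positivity), ← ENNReal.ofReal_mul (by positivity),
          ← ENNReal.ofReal_mul (by positivity),
          ← ENNReal.ofReal_add (by positivity) (by positivity),
          ← ENNReal.ofReal_add (by positivity) (by positivity)]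
        congr 1
        field_simp
        ring
    _ ≤ _ := by
        apply ENNReal.ofReal_le_ofReal
        rw [hP1]
        have c1 : Real.pi * (x ^ (-(2 * a)) / x) * (a ^ 2 + (4 * b x + b x ^ 2 * x)) ≤
            Real.pi * (x ^ (-(2 * a)) / x) * (a ^ 2 + η) := by gcongr
        linarith

private theorem G2_meas (ε δ : ℝ) (k0 k1 : ℕ) : Measurable (G2 ε δ k0 k1) := by
  unfold G2 F2 KQB.gg KQB.gk
  have : Measurable Complex.log := Complex.measurable_log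
  fun_prop

theorem area_G2 {ε δ : ℝ} {k0 k1 : ℕ} (h : KQB.Par ε δ k0 k1) {R : ℝ} (hR : 0 < R) :
    ∫⁻ u in {u : ℂ | 0 < u.re ∧ ‖G2 ε δ k0 k1 u‖ < R},
      ENNReal.ofReal (‖deriv (G2 ε δ k0 k1) u‖ ^ 2) ≤
        ENNReal.ofReal (Real.pi * (1 / 4) * R ^ 2) := by
  have hpi := Real.pi_pos
  have hδ0 := h.he
  have hδ1 := h.he1
  have hδ8 : δ ≤ 1 / 8 := by linarith
  obtain ⟨b, hbm, hb1, hb2⟩ := gg_der2 h.hε.le h.he.le hδ8 (k1 := k1) h.hk
  have hb0 : ∀ x, 0 < x → 0 ≤ b x := fun x hx => (hb1 x hx).1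
  have hdl0 := KQB.dl_nonneg h
  have hdl1 : KQB.dl ε k0 ≤ δ / 200 := h.h1
  have hdl2 := KQB.dl_le h
  set a : ℝ := 1 / 2 - 2 * δ with ha
  have ha0 : 0 < a := by linarith
  set y : ℝ := (R / (1 - KQB.dl ε k0)) ^ (-(1 / a)) with hy
  have hR1 : 0 < R / (1 - KQB.dl ε k0) := div_pos hR (by linarith)
  have hy0 : 0 < y := Real.rpow_pos_of_pos hR1 _
  have hya : y ^ (-a) = R / (1 - KQB.dl ε k0) := by
    rw [hy, ← Real.rpow_mul hR1.le]
    have : -(1 / a) * -a = 1 := by field_simp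
    rw [this, Real.rpow_one]
  have hy2a : y ^ (-(2 * a)) = (R / (1 - KQB.dl ε k0)) ^ 2 := by
    rw [← hya, ← Real.rpow_natCast, ← Real.rpow_mul hy0.le]
    congr 1
    push_cast
    ring
  have far2 : ∀ u : ℂ, 0 < u.re → ‖G2 ε δ k0 k1 u‖ < R → y < ‖u‖ := by
    intro u hu hG
    have hu0 : 0 < ‖u‖ := norm_pos_iff.2 (by rintro rfl; simp at hu)
    have h1 : ‖KQB.gg ε 0 k0 k1 u‖ ≤ KQB.dl ε k0 * ‖F2 δ u‖ :=
      gg_bd2 h.hε.le h.he.le hδ8 h.hk hu
    have h2 : ‖F2 δ u‖ * (1 - KQB.dl ε k0) < R := by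
      have := norm_sub_le (F2 δ u + KQB.gg ε 0 k0 k1 u) (KQB.gg ε 0 k0 k1 u)
      rw [add_sub_cancel_right] at this
      have h3 : ‖F2 δ u + KQB.gg ε 0 k0 k1 u‖ < R := hG
      linarith
    rw [F2_norm δ hu, ← ha, ← lt_div_iff₀ (by linarith), ← hya] at h2
    by_contra hcon
    push Not at hcon
    have := Real.rpow_le_rpow_of_nonpos hu0 hcon (by linarith : -a ≤ 0)
    linarith
  have hGm := G2_meas ε δ k0 k1
  set S : Set ℂ := {u | ‖G2 ε δ k0 k1 u‖ < R} with hS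
  have hSm : MeasurableSet S := measurableSet_lt hGm.norm measurable_const
  set f : ℂ → ENNReal := fun u => ENNReal.ofReal (‖deriv (G2 ε δ k0 k1) u‖ ^ 2) with hf
  have hfm : Measurable f := by
    have := measurable_deriv (G2 ε δ k0 k1)
    fun_prop
  have hset : {u : ℂ | 0 < u.re ∧ ‖G2 ε δ k0 k1 u‖ < R} = S ∩ {u : ℂ | 0 < u.re} := by
    ext u
    simp only [hS, mem_ofPred_eq, mem_inter_iff]
    tauto
  rw [hset, ← setLIntegral_indicator hSm, KQB.polar (hfm.indicator hSm)]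
  have inner : ∀ φ ∈ Ioo (-(Real.pi / 2)) (Real.pi / 2),
      ∫⁻ x in Ioi (0 : ℝ), ENNReal.ofReal x * S.indicator f (KQB.pt x φ) ≤
        ∫⁻ x in Ioi y, ENNReal.ofReal (LL a b x φ) := by
    intro φ hφ
    have hφ' : |φ| < Real.pi / 2 := abs_lt.2 ⟨by linarith [hφ.1], hφ.2⟩
    have hc := Real.cos_pos_of_mem_Ioo hφ
    have step : ∀ x ∈ Ioi (0 : ℝ), ENNReal.ofReal x * S.indicator f (KQB.pt x φ) ≤
        (Ioi y).indicator (fun x => ENNReal.ofReal (LL a b x φ)) x := by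
      intro x hx
      have hx0 : 0 < x := hx
      have hre : 0 < (KQB.pt x φ).re := by
        rw [KQB.pt_re]
        positivity
      by_cases hxS : KQB.pt x φ ∈ S
      · have hxy : y < x := by
          have := far2 _ hre hxS
          rwa [KQB.pt_norm hx0.le] at this
        rw [indicator_of_mem hxS, indicator_of_mem (show x ∈ Ioi y from hxy)]
        simp only [hf]
        rw [← ENNReal.ofReal_mul hx0.le]
        exact ENNReal.ofReal_le_ofReal (point2 h hb0 hb2 hx0 hφ')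
      · rw [indicator_of_notMem hxS]
        simp
    calc _ ≤ ∫⁻ x in Ioi (0 : ℝ), (Ioi y).indicator (fun x => ENNReal.ofReal (LL a b x φ)) x :=
          setLIntegral_mono' measurableSet_Ioi step
      _ ≤ ∫⁻ x, (Ioi y).indicator (fun x => ENNReal.ofReal (LL a b x φ)) x :=
          setLIntegral_le_lintegral _ _
      _ = _ := lintegral_indicator measurableSet_Ioi _
  have hη : ∀ x, 0 < x → 4 * b x + b x ^ 2 * x ≤ δ / 12800 := fun x hx =>
    (hb1 x hx).2.trans h.h2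
  calc _ ≤ ∫⁻ φ in Ioo (-(Real.pi / 2)) (Real.pi / 2), ∫⁻ x in Ioi y,
        ENNReal.ofReal (LL a b x φ) := setLIntegral_mono' measurableSet_Ioo inner
    _ ≤ _ := swap2 hbm hb0 ha0 hη hy0
    _ ≤ _ := by
        apply ENNReal.ofReal_le_ofReal
        rw [hy2a]
        set d := KQB.dl ε k0 with hd
        have hd1 : (0 : ℝ) < 1 - d := by linarith
        have e1 : (1 : ℝ) - δ / 100 ≤ (1 - d) ^ 2 := by nlinarith
        have e2 : a ^ 2 + δ / 12800 ≤ a / 2 * (1 - d) ^ 2 := by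
          have : a / 2 * (1 - δ / 100) ≤ a / 2 * (1 - d) ^ 2 := by gcongr
          nlinarith
        have e3 : Real.pi * (a ^ 2 + δ / 12800) * ((R / (1 - d)) ^ 2 / (2 * a)) =
            Real.pi * R ^ 2 * ((a ^ 2 + δ / 12800) / (2 * a * (1 - d) ^ 2)) := by
          field_simp
        rw [e3]
        have e4 : (a ^ 2 + δ / 12800) / (2 * a * (1 - d) ^ 2) ≤ 1 / 4 := by
          rw [div_le_iff₀ (by positivity)]
          linarith
        have : Real.pi * R ^ 2 * ((a ^ 2 + δ / 12800) / (2 * a * (1 - d) ^ 2)) ≤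
            Real.pi * R ^ 2 * (1 / 4) := by gcongr
        linarith

end KQT
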