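import Pool.Agent.KQT.Defs
import Pool.Agent.KQB.Cf

set_option autoImplicit false

/-!
# KQT CF : coefficients of `F2 (n (1-z))`

* `coef_F2`: `F2 (n (1-z)) = n^(-a) (1-z)^(-a)`, `a = 1/2 - 2δ ≥ 0`; the coefficients of
  `(1-z)^(-a)` are `∏_{j<k} (a + j) / k! ≥ 0`.
-/

open MeasureTheory Metric Set

namespace KQT

private theorem cf_re {z : ℂ} (hz : z ∈ ball (0 : ℂ) 1) : 0 < (1 - z).re := by
  rw [mem_ball_zero_iff] at hz
  have h1 : |z.re| < 1 := lt_of_le_of_lt (Complex.abs_re_le_norm z) hz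
  rw [abs_lt] at h1
  simp only [Complex.sub_re, Complex.one_re]
  linarith

private theorem cf_deriv (b : ℂ) {z : ℂ} (hz : 0 < (1 - z).re) (a : ℂ) :
    HasDerivAt (fun z : ℂ => a * Complex.exp (-b * Complex.log (1 - z)))
      (a * b * Complex.exp (-(b + 1) * Complex.log (1 - z))) z := by
  have hne : 1 - z ≠ 0 := Complex.slitPlane_ne_zero (Or.inl hz)
  have h0 : HasDerivAt (fun z : ℂ => 1 - z) (-1) z := by
    simpa using (hasDerivAt_id z).const_sub 1
  have h1 := (((h0.clog (Or.inl hz)).const_mul (-b)).cexp).const_mul a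
  refine HasDerivAt.congr_deriv h1 ?_
  have h2 : -(b + 1) * Complex.log (1 - z) = -b * Complex.log (1 - z) - Complex.log (1 - z) := by
    ring
  rw [h2, Complex.exp_sub, Complex.exp_log hne]
  field_simp

private theorem cf_iter (b : ℂ) (k : ℕ) : ∀ z : ℂ, 0 < (1 - z).re →
    iteratedDeriv k (fun z : ℂ => Complex.exp (-b * Complex.log (1 - z))) z =
      (∏ j ∈ Finset.range k, (b + j)) * Complex.exp (-(b + k) * Complex.log (1 - z)) := by
  induction k with
  | zero => intro z _; simp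
  | succ k ih =>
    intro z hz
    rw [iteratedDeriv_succ]
    have hopen : IsOpen {z : ℂ | 0 < (1 - z).re} := isOpen_lt continuous_const (by fun_prop)
    have h1 : iteratedDeriv k (fun z : ℂ => Complex.exp (-b * Complex.log (1 - z))) =ᶠ[nhds z]
        fun z => (∏ j ∈ Finset.range k, (b + j)) *
          Complex.exp (-(b + k) * Complex.log (1 - z)) := by
      filter_upwards [hopen.mem_nhds hz] with w hw using ih w hw
    rw [h1.deriv_eq, (cf_deriv _ hz _).deriv, Finset.prod_range_succ]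
    push_cast
    rw [add_assoc b]

private theorem cf_coef {b : ℝ} (hb : 0 ≤ b) (k : ℕ) :
    ∃ r : ℝ, 0 ≤ r ∧
      MPV.coef (fun z : ℂ => Complex.exp (-(b : ℂ) * Complex.log (1 - z))) k = (r : ℂ) := by
  refine ⟨(∏ j ∈ Finset.range k, (b + j)) / (k.factorial : ℝ), ?_, ?_⟩
  · have h1 : 0 ≤ ∏ j ∈ Finset.range k, (b + (j : ℝ)) := Finset.prod_nonneg fun j _ => by positivity
    positivity
  · unfold MPV.coef
    rw [cf_iter _ k 0 (by simp)]
    simp

theorem coef_F2 {δ : ℝ} (h1 : δ ≤ 1 / 8) {n : ℕ} (hn : 1 ≤ n) (m : ℕ) :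
    ∃ r : ℝ, 0 ≤ r ∧ MPV.coef (fun z => F2 δ (n * (1 - z))) m = (r : ℂ) := by
  have hn0 : (0 : ℝ) < n := by exact_mod_cast hn
  have hb : 0 ≤ 1 / 2 - 2 * δ := by linarith
  obtain ⟨C, hC⟩ : ∃ C : ℝ, C = Real.exp (-(1 / 2 - 2 * δ) * Real.log n) := ⟨_, rfl⟩
  have hC0 : 0 ≤ C := by rw [hC]; positivity
  have heq : ∀ z ∈ ball (0 : ℂ) 1, F2 δ (n * (1 - z)) =
      (C : ℂ) * Complex.exp (-((1 / 2 - 2 * δ : ℝ) : ℂ) * Complex.log (1 - z)) := by
    intro z hz
    have h2 : 1 - z ≠ 0 := Complex.slitPlane_ne_zero (Or.inl (cf_re hz))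
    have h3 : Complex.log ((n : ℂ) * (1 - z)) = (Real.log n : ℂ) + Complex.log (1 - z) := by
      have := Complex.log_ofReal_mul hn0 h2
      rw [← this]
      simp
    unfold F2
    rw [h3, hC, Complex.ofReal_exp, ← Complex.exp_add]
    congr 1
    push_cast
    ring
  rw [MPV.coef_congr heq m]
  have d1 : DifferentiableOn ℂ
      (fun z : ℂ => Complex.exp (-((1 / 2 - 2 * δ : ℝ) : ℂ) * Complex.log (1 - z))) (ball 0 1) := by
    intro z hz
    have h2 := cf_deriv ((1 / 2 - 2 * δ : ℝ) : ℂ) (cf_re hz) 1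
    simp only [one_mul] at h2
    exact h2.differentiableAt.differentiableWithinAt
  obtain ⟨r, hr, hr'⟩ := cf_coef hb m
  refine ⟨C * r, mul_nonneg hC0 hr, ?_⟩
  rw [KON.coef_mul d1 (C : ℂ) m, hr']
  push_cast
  rfl

end KQT
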