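import Pool.Agent.KQB.Defs

set_option autoImplicit false

/-!
# KQT : the transition at `p = 1/4`, `A_n^{(p)} ≍ n^(2p-1) (p - 1/4 + 1/log n)^(-1/2)`

`F2 δ u = u^(-(1/2-2δ))`, `G2 = F2 + gg` with the scales of KQB: for `δ = 2/log n`,
`z ↦ G2 (n (1-z))` is mean `1/4`-valent and has a large `n`-th coefficient.
-/

namespace KQT

/-- `u^(-(1/2-2δ))` -/
noncomputable def F2 (δ : ℝ) (u : ℂ) : ℂ :=
  Complex.exp (-((1 / 2 - 2 * δ : ℝ) : ℂ) * Complex.log u)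

/-- `F2` plus the scales `k0 ≤ k ≤ k1` -/
noncomputable def G2 (ε δ : ℝ) (k0 k1 : ℕ) (u : ℂ) : ℂ := F2 δ u + KQB.gg ε 0 k0 k1 u

end KQT
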