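import Pool.Agent.KQT.Defs
import Pool.Agent.KQB.Gb

set_option autoImplicit false

/-!
# KQT FF : `F2`, and the scales compared with `F2`

* `F2_norm`: `Re (-(a) log u) = -a log ‖u‖`, `a = 1/2 - 2δ`.  `F2_der`: `F2' = -a F2/u`.
* `gg_bd2`: `KQB.gg_bd` with `e = 0` (`‖KQB.F0 0 N u‖ = ‖u‖^(-1/2)`, `wt ≤ 1`) if `‖u‖ ≥ 1`
  (`‖u‖^(-1/2) ≤ ‖u‖^(-a)`); if `‖u‖ < 1`: `‖gg‖ ≤ ε ∑ 4 α_k ≤ 8 ε 2^(-k0) ≤ 7 ε √(2^(-k0))`
  (`k0 ≥ 1`; `KQB.gk_bd`) and `‖F2‖ ≥ 1`.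
* `gg_der2`: `b x = if x < 1 then 20 ε 2^(-k0) else KQB.bb ε k0 k1 x`; `KQB.gg_der` with `e = 0`,
  `KQB.bb_bd` (`wt ≤ 1`), `KQB.bb_meas`; for `x < 1`: `KQB.gk'_bd`,
  `‖gg'‖ ≤ ε (5/2) (∑ 4 α_k) e^{-Re u/2} ≤ 20 ε 2^(-k0) e^{-Re u/2}`, and
  `80 ε 2^(-k0) + 400 ε² 4^(-k0) ≤ 70 ε √(2^(-k0)) + 400 ε²` (`80/√2 ≤ 70`).
-/

open MeasureTheory

namespace KQT

private theorem ne_of_re {u : ℂ} (hu : 0 < u.re) : u ≠ 0 := by
  rintro rfl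
  simp at hu

private theorem F2_hd (δ : ℝ) {u : ℂ} (hu : 0 < u.re) :
    HasDerivAt (F2 δ) (F2 δ u * (-((1 / 2 - 2 * δ : ℝ) : ℂ) * u⁻¹)) u := by
  have h1 : HasDerivAt Complex.log u⁻¹ u := Complex.hasDerivAt_log (Or.inl hu)
  exact (h1.const_mul (-((1 / 2 - 2 * δ : ℝ) : ℂ))).cexp

theorem F2_diff (δ : ℝ) : DifferentiableOn ℂ (F2 δ) {u | 0 < u.re} := by
  intro u hu
  exact (F2_hd δ hu).differentiableAt.differentiableWithinAt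

theorem F2_norm (δ : ℝ) {u : ℂ} (hu : 0 < u.re) : ‖F2 δ u‖ = ‖u‖ ^ (-(1 / 2 - 2 * δ)) := by
  have hx : 0 < ‖u‖ := norm_pos_iff.2 (ne_of_re hu)
  unfold F2
  rw [Complex.norm_exp, Real.rpow_def_of_pos hx]
  congr 1
  rw [← Complex.ofReal_neg, Complex.re_ofReal_mul, Complex.log_re]
  ring

theorem F2_der {δ : ℝ} (h1 : δ ≤ 1 / 8) {u : ℂ} (hu : 0 < u.re) :
    ‖deriv (F2 δ) u‖ = (1 / 2 - 2 * δ) * ‖F2 δ u‖ / ‖u‖ := by
  rw [(F2_hd δ hu).deriv, norm_mul, norm_mul, norm_neg, Complex.norm_real, norm_inv,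
    Real.norm_of_nonneg (by linarith)]
  ring

private theorem F0_zero_norm (N : ℝ) {u : ℂ} (hu : 0 < u.re) :
    ‖KQB.F0 0 N u‖ = ‖u‖ ^ (-(1 / 2 : ℝ)) := by
  have hx : 0 < ‖u‖ := norm_pos_iff.2 (ne_of_re hu)
  unfold KQB.F0
  rw [Complex.norm_exp, Real.rpow_def_of_pos hx]
  congr 1
  have h1 : (-(1 / 2 : ℂ)) = ((-(1 / 2) : ℝ) : ℂ) := by push_cast; ring
  rw [Complex.ofReal_zero, mul_zero, zero_mul, sub_zero, h1, Complex.re_ofReal_mul, Complex.log_re]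
  ring

private theorem F0_le_F2 {δ : ℝ} (h0 : 0 ≤ δ) (N : ℝ) {u : ℂ} (hu : 0 < u.re) (h1 : 1 ≤ ‖u‖) :
    ‖KQB.F0 0 N u‖ ≤ ‖F2 δ u‖ := by
  rw [F0_zero_norm N hu, F2_norm δ hu]
  exact Real.rpow_le_rpow_of_exponent_le h1 (by linarith)

private theorem one_le_F2 {δ : ℝ} (h1 : δ ≤ 1 / 8) {u : ℂ} (hu : 0 < u.re) (hu1 : ‖u‖ < 1) :
    1 ≤ ‖F2 δ u‖ := by
  have hx : 0 < ‖u‖ := norm_pos_iff.2 (ne_of_re hu)
  rw [F2_norm δ hu]
  exact Real.one_le_rpow_of_pos_of_le_one_of_nonpos hx hu1.le (by linarith)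

private theorem sum_half (k0 k1 : ℕ) :
    ∑ k ∈ Finset.Icc k0 k1, (1 / 2 : ℝ) ^ k ≤ 2 * (1 / 2 : ℝ) ^ k0 := by
  have key : ∀ m : ℕ, k0 ≤ m + 1 → ∑ k ∈ Finset.Icc k0 m, (1 / 2 : ℝ) ^ k =
      2 * ((1 / 2 : ℝ) ^ k0 - (1 / 2 : ℝ) ^ (m + 1)) := by
    intro m
    induction m with
    | zero =>
      intro h
      rcases Nat.eq_zero_or_pos k0 with rfl | h0
      · simp
        norm_num
      · have : k0 = 1 := by omega
        subst this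
        simp
    | succ m ih =>
      intro h
      rcases Nat.lt_or_ge (m + 1) k0 with h1 | h1
      · have : k0 = m + 1 + 1 := by omega
        subst this
        rw [Finset.Icc_eq_empty (by omega)]
        simp
      · rw [← Finset.insert_Icc_right_eq_Icc_add_one h1, Finset.sum_insert (by simp), ih h1]
        ring
  rcases Nat.lt_or_ge k1 k0 with h | h
  · rw [Finset.Icc_eq_empty (by omega), Finset.sum_empty]
    positivity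
  · rw [key k1 (by omega)]
    have h2 : (0 : ℝ) ≤ (1 / 2 : ℝ) ^ (k1 + 1) := by positivity
    linarith

private theorem sqrt_bd {k0 : ℕ} (hk : 1 ≤ k0) : ∃ y : ℝ, y = Real.sqrt ((1 / 2 : ℝ) ^ k0) ∧
    0 ≤ y ∧ y ≤ 5 / 7 ∧ (1 / 2 : ℝ) ^ k0 = y * y := by
  refine ⟨Real.sqrt ((1 / 2 : ℝ) ^ k0), rfl, Real.sqrt_nonneg _, ?_, ?_⟩
  · have h1 : (1 / 2 : ℝ) ^ k0 ≤ 1 / 2 := KQB.half_le hk le_rfl
    rw [Real.sqrt_le_left (by norm_num)]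
    linarith
  · rw [Real.mul_self_sqrt (by positivity)]

private theorem coefz {ε : ℝ} (hε : 0 ≤ ε) (k1 : ℕ) :
    ‖((ε * ((2 : ℝ) ^ k1) ^ (-(2 * (0 : ℝ))) : ℝ) : ℂ)‖ = ε := by
  rw [KQB.coef_norm hε, mul_zero, neg_zero, Real.rpow_zero, mul_one]

private theorem frac_le {k : ℕ} {x : ℝ} (hx : 0 ≤ x) :
    (1 / 2 : ℝ) ^ k / (1 + (1 / 2 : ℝ) ^ k * x) ^ 4 ≤ (1 / 2 : ℝ) ^ k := by
  refine div_le_self (by positivity) (one_le_pow₀ ?_)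
  have : 0 ≤ (1 / 2 : ℝ) ^ k * x := by positivity
  linarith

theorem gg_bd2 {ε δ : ℝ} (hε : 0 ≤ ε) (h0 : 0 ≤ δ) (h1 : δ ≤ 1 / 8) {k0 k1 : ℕ} (hk : 1 ≤ k0)
    {u : ℂ} (hu : 0 < u.re) :
    ‖KQB.gg ε 0 k0 k1 u‖ ≤ 7 * ε * Real.sqrt ((1 / 2 : ℝ) ^ k0) * ‖F2 δ u‖ := by
  have hx : 0 < ‖u‖ := norm_pos_iff.2 (ne_of_re hu)
  rcases lt_or_ge ‖u‖ 1 with hx1 | hx1
  · obtain ⟨y, hy, hy0, hy1, hyy⟩ := sqrt_bd hk
    rw [← hy]
    have hS : ‖∑ k ∈ Finset.Icc k0 k1, KQB.gk ((1 / 2 : ℝ) ^ k) u‖ ≤ 8 * (1 / 2 : ℝ) ^ k0 := by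
      refine (norm_sum_le _ _).trans ?_
      calc ∑ k ∈ Finset.Icc k0 k1, ‖KQB.gk ((1 / 2 : ℝ) ^ k) u‖
          ≤ ∑ k ∈ Finset.Icc k0 k1, 4 * (1 / 2 : ℝ) ^ k := by
            refine Finset.sum_le_sum fun k hk' => ?_
            refine (KQB.gk_bd (by positivity)
              ((KQB.half_le hk (Finset.mem_Icc.1 hk').1).trans (by norm_num)) hu).trans ?_
            exact mul_le_mul_of_nonneg_left (frac_le hx.le) (by norm_num)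
        _ = 4 * ∑ k ∈ Finset.Icc k0 k1, (1 / 2 : ℝ) ^ k := by rw [Finset.mul_sum]
        _ ≤ 8 * (1 / 2 : ℝ) ^ k0 := by
            have := sum_half k0 k1
            linarith
    unfold KQB.gg
    rw [norm_mul, coefz hε]
    have hF := one_le_F2 h1 hu hx1
    have h8 : 8 * (1 / 2 : ℝ) ^ k0 ≤ 7 * y := by
      rw [hyy]
      nlinarith
    calc ε * ‖∑ k ∈ Finset.Icc k0 k1, KQB.gk ((1 / 2 : ℝ) ^ k) u‖
        ≤ ε * (7 * y) := mul_le_mul_of_nonneg_left (hS.trans h8) hε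
      _ = 7 * ε * y * 1 := by ring
      _ ≤ 7 * ε * y * ‖F2 δ u‖ := mul_le_mul_of_nonneg_left hF (by positivity)
  · refine (KQB.gg_bd hε le_rfl (by norm_num) hk hu).trans ?_
    have hw : KQB.wt (2 ^ k1) ‖u‖ ≤ 1 := min_le_left _ _
    have hw0 := KQB.wt_nonneg (2 ^ k1) ‖u‖
    have hF := F0_le_F2 h0 (2 ^ k1) hu hx1
    have hc : 0 ≤ 7 * ε * Real.sqrt ((1 / 2 : ℝ) ^ k0) := by positivity
    calc 7 * ε * Real.sqrt ((1 / 2 : ℝ) ^ k0) * KQB.wt (2 ^ k1) ‖u‖ * ‖KQB.F0 0 (2 ^ k1) u‖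
        ≤ 7 * ε * Real.sqrt ((1 / 2 : ℝ) ^ k0) * 1 * ‖F2 δ u‖ :=
          mul_le_mul (mul_le_mul_of_nonneg_left hw hc) hF (norm_nonneg _) (by positivity)
      _ = _ := by ring

theorem gg_der2 {ε δ : ℝ} (hε : 0 ≤ ε) (h0 : 0 ≤ δ) (h1 : δ ≤ 1 / 8) {k0 k1 : ℕ}
    (hk : 1 ≤ k0) : ∃ b : ℝ → ℝ, Measurable b ∧
      (∀ x : ℝ, 0 < x → 0 ≤ b x ∧ 4 * b x + b x ^ 2 * x ≤
        70 * ε * Real.sqrt ((1 / 2 : ℝ) ^ k0) + 400 * ε ^ 2) ∧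
      ∀ u : ℂ, 0 < u.re → ‖deriv (KQB.gg ε 0 k0 k1) u‖ ≤
        b ‖u‖ * Real.exp (-(u.re / 2)) * ‖F2 δ u‖ := by
  classical
  obtain ⟨y, hy, hy0, hy1, hyy⟩ := sqrt_bd hk
  rw [← hy]
  refine ⟨fun x => if x < 1 then 20 * ε * (1 / 2 : ℝ) ^ k0 else KQB.bb ε k0 k1 x, ?_, ?_, ?_⟩
  · exact Measurable.ite measurableSet_Iio measurable_const (KQB.bb_meas ε k0 k1)
  · intro x hx
    by_cases hx1 : x < 1
    · simp only [if_pos hx1]
      rw [hyy]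
      refine ⟨by positivity, ?_⟩
      have h2 : 4 * (20 * ε * (y * y)) ≤ 70 * ε * y := by
        have h3 : y * y ≤ 5 / 7 * y := mul_le_mul_of_nonneg_right hy1 hy0
        have h4 : ε * (y * y) ≤ ε * (5 / 7 * y) := mul_le_mul_of_nonneg_left h3 hε
        have h5 : 0 ≤ ε * y := mul_nonneg hε hy0
        nlinarith
      have h3 : (20 * ε * (y * y)) ^ 2 * x ≤ 400 * ε ^ 2 := by
        have h4 : (y * y) ^ 2 ≤ 1 := by
          have h5 : y * y ≤ 1 := by nlinarith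
          exact pow_le_one₀ (mul_nonneg hy0 hy0) h5
        have h6 : (y * y) ^ 2 * x ≤ 1 * 1 := mul_le_mul h4 hx1.le hx.le zero_le_one
        calc (20 * ε * (y * y)) ^ 2 * x = 400 * ε ^ 2 * ((y * y) ^ 2 * x) := by ring
          _ ≤ 400 * ε ^ 2 * (1 * 1) := mul_le_mul_of_nonneg_left h6 (by positivity)
          _ = 400 * ε ^ 2 := by ring
      linarith
    · simp only [if_neg hx1]
      obtain ⟨h2, h3⟩ := KQB.bb_bd hε k0 k1 hx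
      rw [← hy] at h3
      refine ⟨h2, h3.trans ?_⟩
      have hw : KQB.wt (2 ^ k1) x ≤ 1 := min_le_left _ _
      exact mul_le_of_le_one_right (by positivity) hw
  · intro u hu
    have hx : 0 < ‖u‖ := norm_pos_iff.2 (ne_of_re hu)
    by_cases hx1 : ‖u‖ < 1
    · simp only [if_pos hx1]
      have hF := one_le_F2 h1 hu hx1
      have hS : ‖∑ k ∈ Finset.Icc k0 k1, KQB.gk' ((1 / 2 : ℝ) ^ k) u‖ ≤
          20 * (1 / 2 : ℝ) ^ k0 * Real.exp (-(u.re / 2)) := by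
        refine (norm_sum_le _ _).trans ?_
        calc ∑ k ∈ Finset.Icc k0 k1, ‖KQB.gk' ((1 / 2 : ℝ) ^ k) u‖
            ≤ ∑ k ∈ Finset.Icc k0 k1, 5 / 2 * (4 * (1 / 2 : ℝ) ^ k) * Real.exp (-(u.re / 2)) := by
              refine Finset.sum_le_sum fun k hk' => ?_
              refine (KQB.gk'_bd (by positivity)
                (KQB.half_le hk (Finset.mem_Icc.1 hk').1) hu).trans ?_
              refine mul_le_mul_of_nonneg_right ?_ (Real.exp_pos _).le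
              exact mul_le_mul_of_nonneg_left
                (mul_le_mul_of_nonneg_left (frac_le hx.le) (by norm_num)) (by norm_num)
          _ = 10 * (∑ k ∈ Finset.Icc k0 k1, (1 / 2 : ℝ) ^ k) * Real.exp (-(u.re / 2)) := by
              rw [Finset.mul_sum, Finset.sum_mul]
              refine Finset.sum_congr rfl fun k _ => ?_
              ring
          _ ≤ 20 * (1 / 2 : ℝ) ^ k0 * Real.exp (-(u.re / 2)) := by
              refine mul_le_mul_of_nonneg_right ?_ (Real.exp_pos _).le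
              have := sum_half k0 k1
              linarith
      rw [(KQB.gg_hasDeriv ε 0 k0 k1 hu).deriv, norm_mul, coefz hε]
      have hE : 0 < Real.exp (-(u.re / 2)) := Real.exp_pos _
      calc ε * ‖∑ k ∈ Finset.Icc k0 k1, KQB.gk' ((1 / 2 : ℝ) ^ k) u‖
          ≤ ε * (20 * (1 / 2 : ℝ) ^ k0 * Real.exp (-(u.re / 2))) :=
            mul_le_mul_of_nonneg_left hS hε
        _ = 20 * ε * (1 / 2 : ℝ) ^ k0 * Real.exp (-(u.re / 2)) * 1 := by ring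
        _ ≤ 20 * ε * (1 / 2 : ℝ) ^ k0 * Real.exp (-(u.re / 2)) * ‖F2 δ u‖ :=
            mul_le_mul_of_nonneg_left hF (by positivity)
    · simp only [if_neg hx1]
      refine (KQB.gg_der hε le_rfl (by norm_num) hk hu).trans ?_
      have hF := F0_le_F2 h0 (2 ^ k1) hu (not_lt.1 hx1)
      have h2 := (KQB.bb_bd hε k0 k1 hx).1
      exact mul_le_mul_of_nonneg_left hF (mul_nonneg h2 (Real.exp_pos _).le)

end KQT
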