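import Pool.Agent.KQT.Cg
import Pool.Agent.KQB.Near

set_option autoImplicit false

/-!
# KQT NE : `KQB.near` with the explicit threshold `n ≥ 32 · 4^(1/e)`

Copy of `KQB.near` (`Pool/Agent/KQB/Near.lean`), with `KQT.coef_gk`: `k ≤ 2m ≤ 1/e`, so
`n 4^(-k) ≥ n 4^(-1/e) ≥ 32` for `α = 2^(-k)`.
-/

open Filter Topology Metric Set

namespace KQT

open KQB (fin_par fin_zero fin_comp fin_mu fin_coef_add fin_coef_smul fin_coef_sum F0_diff gg_diff
  gk_diff mv_disc area_GG coef_F0 GG gk F0)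

theorem near_all {e : ℝ} (he : 0 < e) (he1 : e ≤ 1 / 100) {n : ℕ}
    (hn : 32 * (4 : ℝ) ^ (1 / e) ≤ n) :
    ENNReal.ofReal (1 / 10 ^ 9 / Real.sqrt e * (n : ℝ) ^ (2 * (1 / 4 + e) - 1)) ≤
      MPV.A (1 / 4 + e) n := by
  obtain ⟨m, hm⟩ : ∃ m, m = ⌊1 / (2 * e)⌋₊ := ⟨_, rfl⟩
  obtain ⟨hP, hm1, hm2⟩ := fin_par he he1 hm
  set ε := Real.sqrt e / 4000 with hε
  have hs : 0 < Real.sqrt e := Real.sqrt_pos.2 he
  have hs2 : Real.sqrt e ^ 2 = e := Real.sq_sqrt he.le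
  have hN : (0 : ℝ) < 2 ^ (2 * m) := by positivity
  have h4pos : (0 : ℝ) < (4 : ℝ) ^ (1 / e) := by positivity
  have hn1 : 1 ≤ n := by
    have h1 : (1 : ℝ) ≤ (4 : ℝ) ^ (1 / e) := Real.one_le_rpow (by norm_num) (by positivity)
    have h2 : (1 : ℝ) ≤ n := by linarith
    exact_mod_cast h2
  have hall : ∀ k ∈ Finset.Icc m (2 * m),
      ∃ r : ℝ, 1 / (4200 * n) ≤ r ∧
        MPV.coef (fun z => gk ((1 / 2 : ℝ) ^ k) (n * (1 - z))) n = (r : ℂ) := by
    intro k hk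
    have hk1 : 1 ≤ k := by
      have := hP.hk
      have := (Finset.mem_Icc.1 hk).1
      omega
    refine coef_gk (by positivity) ?_ ?_
    · calc (1 / 2 : ℝ) ^ k ≤ (1 / 2) ^ 1 := pow_le_pow_of_le_one (by norm_num) (by norm_num) hk1
        _ = 1 / 2 := by norm_num
    · have hk2 : (k : ℝ) ≤ 1 / e := by
        have h1 : (k : ℝ) ≤ ((2 * m : ℕ) : ℝ) := by exact_mod_cast (Finset.mem_Icc.1 hk).2
        have h2 : 1 / e = 2 * (1 / (2 * e)) := by field_simp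
        rw [h2]
        push_cast at h1
        linarith
      have h3 : (4 : ℝ) ^ k ≤ (4 : ℝ) ^ (1 / e) := by
        rw [← Real.rpow_natCast]
        exact Real.rpow_le_rpow_of_exponent_le (by norm_num) hk2
      have h4 : (((1 : ℝ) / 2) ^ k) ^ 2 = ((4 : ℝ) ^ k)⁻¹ := by
        rw [← pow_mul, mul_comm, pow_mul, ← inv_pow]
        norm_num
      have h5 : (0 : ℝ) < (4 : ℝ) ^ k := by positivity
      rw [h4, ← div_eq_mul_inv, le_div_iff₀ h5]
      calc 32 * (4 : ℝ) ^ k ≤ 32 * (4 : ℝ) ^ (1 / e) := by gcongr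
        _ ≤ n := hn
  clear hn
  have hn := hall
  have hn0 : (0 : ℝ) < n := by exact_mod_cast hn1
  obtain ⟨hz1, hz2⟩ := fin_zero hP hn1
  set c : ℝ := ε * ((2 : ℝ) ^ (2 * m)) ^ (-(2 * e)) with hc
  have hGd : DifferentiableOn ℂ (GG ε e m (2 * m)) {u | 0 < u.re} :=
    (F0_diff hN.le).add (gg_diff ε e m (2 * m))
  set C : ℝ := ‖GG ε e m (2 * m) n‖⁻¹ with hC
  have hC0 : 0 < C := inv_pos.2 hz1
  have hmem : (fun z => (C : ℂ) * GG ε e m (2 * m) (n * (1 - z))) ∈ MPV.S (1 / 4 + e) := by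
    refine ⟨(fin_comp hGd hn1).const_mul _, ?_, ?_⟩
    · have := mv_disc (p := 1 / 4 + e) hGd (fun R hR => area_GG hP hR) hn0 hC0
      simpa using this
    · rw [fin_mu (by linarith)]
      simp only [sub_zero, mul_one, norm_mul, Complex.norm_real, Real.norm_eq_abs,
        abs_of_pos hC0]
      exact inv_mul_cancel₀ hz1.ne'
  have hle : ENNReal.ofReal ‖MPV.coef (fun z => (C : ℂ) * GG ε e m (2 * m) (n * (1 - z))) n‖ ≤
      MPV.A (1 / 4 + e) n := by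
    unfold MPV.A
    exact le_iSup₂ (f := fun (f : ℂ → ℂ) (_ : f ∈ MPV.S (1 / 4 + e)) =>
      ENNReal.ofReal ‖MPV.coef f n‖) _ hmem
  refine le_trans (ENNReal.ofReal_le_ofReal ?_) hle
  -- the coefficient
  have hdk : ∀ k ∈ Finset.Icc m (2 * m),
      DifferentiableOn ℂ (fun z => gk ((1 / 2 : ℝ) ^ k) (n * (1 - z))) (ball 0 1) :=
    fun k _ => fin_comp (gk_diff (by positivity)) hn1
  obtain ⟨r0, hr0, hr0'⟩ := coef_F0 (N := 2 ^ (2 * m)) he hN hn1 n
  choose! r hr1 hr2 using hn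
  have hcoef : MPV.coef (fun z => (C : ℂ) * GG ε e m (2 * m) (n * (1 - z))) n =
      ((C * (r0 + c * ∑ k ∈ Finset.Icc m (2 * m), r k) : ℝ) : ℂ) := by
    rw [fin_coef_smul (fin_comp hGd hn1)]
    have e1 : (fun z : ℂ => GG ε e m (2 * m) (n * (1 - z))) = fun z =>
        F0 e (2 ^ (2 * m)) (n * (1 - z)) + (c : ℂ) * ∑ k ∈ Finset.Icc m (2 * m),
          gk ((1 / 2 : ℝ) ^ k) (n * (1 - z)) := rfl
    have hsd : DifferentiableOn ℂ (fun z => ∑ k ∈ Finset.Icc m (2 * m),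
        gk ((1 / 2 : ℝ) ^ k) (n * (1 - z))) (ball 0 1) := DifferentiableOn.fun_sum hdk
    rw [e1, fin_coef_add (fin_comp (F0_diff hN.le) hn1) (hsd.const_mul _),
      fin_coef_smul hsd, fin_coef_sum hdk]
    have e2 : MPV.coef (fun z => F0 e (2 ^ (2 * m)) (n * (1 - z))) n = (r0 : ℂ) := by
      exact hr0'
    rw [e2, Finset.sum_congr rfl hr2]
    push_cast
    ring
  rw [hcoef, Complex.norm_real, Real.norm_eq_abs]
  refine le_trans ?_ (le_abs_self _)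
  have hsum : ((m : ℝ) + 1) * (1 / (4200 * n)) ≤ ∑ k ∈ Finset.Icc m (2 * m), r k := by
    have := Finset.card_nsmul_le_sum (Finset.Icc m (2 * m)) r (1 / (4200 * n)) hr1
    rw [Nat.card_Icc, nsmul_eq_mul] at this
    have e3 : ((2 * m + 1 - m : ℕ) : ℝ) = (m : ℝ) + 1 := by
      rw [show 2 * m + 1 - m = m + 1 by omega]
      push_cast
      ring
    rwa [e3] at this
  have hNe : (1 / 4 : ℝ) ≤ ((2 : ℝ) ^ (2 * m)) ^ (-(2 * e)) := by
    rw [← Real.rpow_natCast, ← Real.rpow_mul (by norm_num)]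
    have h1 : (1 / 4 : ℝ) = (2 : ℝ) ^ (-2 : ℝ) := by
      rw [Real.rpow_neg (by norm_num)]
      norm_num
    rw [h1]
    apply Real.rpow_le_rpow_of_exponent_le (by norm_num)
    push_cast
    have h2 : (m : ℝ) * (2 * e) ≤ 1 := by
      rw [le_div_iff₀ (by positivity)] at hm2
      exact hm2
    nlinarith
  have hcl : Real.sqrt e / 16000 ≤ c := by
    rw [hc, hε]
    have : Real.sqrt e / 4000 * (1 / 4) ≤
        Real.sqrt e / 4000 * ((2 : ℝ) ^ (2 * m)) ^ (-(2 * e)) := by gcongr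
    linarith
  have hCl : (n : ℝ) ^ (2 * (1 / 4 + e)) / 2 ≤ C := by
    rw [hC, le_inv_comm₀ (by positivity) hz1]
    refine hz2.trans (le_of_eq ?_)
    rw [Real.rpow_neg hn0.le, inv_div]
    ring
  have hpow : (n : ℝ) ^ (2 * (1 / 4 + e) - 1) = (n : ℝ) ^ (2 * (1 / 4 + e)) / n := by
    rw [Real.rpow_sub hn0, Real.rpow_one]
  have hX : 0 < (n : ℝ) ^ (2 * (1 / 4 + e)) := by positivity
  rw [hpow]
  calc 1 / 10 ^ 9 / Real.sqrt e * ((n : ℝ) ^ (2 * (1 / 4 + e)) / n) ≤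
      (n : ℝ) ^ (2 * (1 / 4 + e)) / 2 * (Real.sqrt e / 16000 *
        (1 / (2 * e) * (1 / (4200 * n)))) := by
        have e5 : (n : ℝ) ^ (2 * (1 / 4 + e)) / 2 * (Real.sqrt e / 16000 *
            (1 / (2 * e) * (1 / (4200 * n)))) =
            1 / 268800000 / Real.sqrt e * ((n : ℝ) ^ (2 * (1 / 4 + e)) / n) := by
          have : e = Real.sqrt e * Real.sqrt e := by rw [← sq, hs2]
          rw [show (1 / (2 * e) : ℝ) = 1 / (2 * (Real.sqrt e * Real.sqrt e)) by rw [← this]]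
          field_simp
          norm_num
        rw [e5]
        gcongr
        norm_num
    _ ≤ C * (c * (((m : ℝ) + 1) * (1 / (4200 * n)))) := by gcongr
    _ ≤ C * (c * ∑ k ∈ Finset.Icc m (2 * m), r k) := by
        have : 0 ≤ c := le_trans (by positivity) hcl
        gcongr
    _ ≤ C * (r0 + c * ∑ k ∈ Finset.Icc m (2 * m), r k) := by
        gcongr
        linarith

end KQT
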