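import Pool.Agent.KQT.Qu
import Pool.Agent.KQT.Ne
import Pool.Agent.KQT.Ba

set_option autoImplicit false

/-!
# KQT LO : the lower bound, uniform in `p` and `n`

`s = p - 1/4 + 1/log n`.
* `p ≥ 26/100`: `1/√s ≤ 10`, `base`.
* `e = p - 1/4 < 1/100`, `n ≥ 32 · 4^(1/e)`, `e > 0`: `near_all`, `1/√s ≤ 1/√e`.
* otherwise `n < 32 · 4^(1/e)` or `e = 0`: `e log n ≤ e log 32 + log 4 ≤ 2`, so
  `n^(2p-1) = n^(-1/2) n^(2e) ≤ e^4 n^(-1/2)`, `1/√s ≤ √(log n)`; `A_mono` and
  `quarter` if `log n ≥ 200`, `base` at `1/4` if `log n < 200` (`√(log n) ≤ 15`).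
-/

open Filter Topology Metric Set

namespace KQT

theorem lower : ∃ c : ℝ, 0 < c ∧ ∀ p : ℝ, 1 / 4 ≤ p → p < 1 → ∀ n : ℕ, 2 ≤ n →
    ENNReal.ofReal (c / Real.sqrt (p - 1 / 4 + 1 / Real.log n) * (n : ℝ) ^ (2 * p - 1)) ≤
      MPV.A p n := by
  obtain ⟨c1, hc1, H1⟩ := quarter
  have hexp4 : 0 < Real.exp 4 := Real.exp_pos 4
  have hexp4' : Real.exp 4 ≤ 100 := by
    have h1 := Real.exp_one_lt_d9
    have h2 : Real.exp 4 = Real.exp 1 ^ 4 := by
      rw [← Real.exp_nat_mul]
      norm_num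
    rw [h2]
    calc Real.exp 1 ^ 4 ≤ 3 ^ 4 := by gcongr; linarith
      _ ≤ 100 := by norm_num
  obtain ⟨c, hc⟩ : ∃ c : ℝ, c = min (1 / 10 ^ 9) (c1 / Real.exp 4) := ⟨_, rfl⟩
  have hc0 : 0 < c := by
    rw [hc]
    exact lt_min (by norm_num) (by positivity)
  have hc9 : c ≤ 1 / 10 ^ 9 := by
    rw [hc]
    exact min_le_left _ _
  have hcc : c * Real.exp 4 ≤ c1 := by
    have : c ≤ c1 / Real.exp 4 := by
      rw [hc]
      exact min_le_right _ _
    rwa [le_div_iff₀ hexp4] at this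
  refine ⟨c, hc0, fun p hp hp1 n hn => ?_⟩
  have hn0 : (0 : ℝ) < n := by
    have : 0 < n := by omega
    exact_mod_cast this
  have hn1 : 1 ≤ n := by omega
  have hn1' : (1 : ℝ) < n := by
    have : 1 < n := by omega
    exact_mod_cast this
  have hlog : 0 < Real.log n := Real.log_pos hn1'
  have hil : 0 < 1 / Real.log n := by positivity
  have hX : 0 < (n : ℝ) ^ (2 * p - 1) := Real.rpow_pos_of_pos hn0 _
  obtain ⟨s, hs⟩ : ∃ s : ℝ, s = p - 1 / 4 + 1 / Real.log n := ⟨_, rfl⟩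
  rw [← hs]
  have hs0 : 0 < s := by linarith
  have hss : 0 < Real.sqrt s := Real.sqrt_pos.2 hs0
  rcases le_or_gt (26 / 100) p with h26 | h26
  · refine le_trans (ENNReal.ofReal_le_ofReal ?_) (base hp hp1 hn1)
    have h1 : (1 / 10 : ℝ) ≤ Real.sqrt s := by
      apply Real.le_sqrt_of_sq_le
      linarith
    have h2 : c / Real.sqrt s ≤ 1 / 2 := by
      rw [div_le_iff₀ hss]
      linarith
    gcongr
  obtain ⟨e, he⟩ : ∃ e : ℝ, e = p - 1 / 4 := ⟨_, rfl⟩
  have hpe : p = 1 / 4 + e := by linarith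
  have he0 : 0 ≤ e := by linarith
  have he1 : e ≤ 1 / 100 := by linarith
  by_cases hcase : 0 < e ∧ 32 * (4 : ℝ) ^ (1 / e) ≤ n
  · obtain ⟨hepos, hbig⟩ := hcase
    have h1 := near_all hepos he1 hbig
    rw [← hpe] at h1
    refine le_trans (ENNReal.ofReal_le_ofReal ?_) h1
    have h2 : Real.sqrt e ≤ Real.sqrt s := Real.sqrt_le_sqrt (by linarith)
    have h3 : 0 < Real.sqrt e := Real.sqrt_pos.2 hepos
    gcongr
  · -- `e log n ≤ 2`
    have hel : e * Real.log n ≤ 2 := by
      rcases he0.eq_or_lt with h0 | h0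
      · rw [← h0, zero_mul]
        norm_num
      · have h1 : (n : ℝ) < 32 * (4 : ℝ) ^ (1 / e) := by
          by_contra hcon
          exact hcase ⟨h0, not_lt.1 hcon⟩
        have h2 : Real.log n < Real.log (32 * (4 : ℝ) ^ (1 / e)) := Real.log_lt_log hn0 h1
        rw [Real.log_mul (by norm_num) (by positivity), Real.log_rpow (by norm_num)] at h2
        have h3 : Real.log 32 = 5 * Real.log 2 := by
          rw [show (32 : ℝ) = 2 ^ 5 by norm_num, Real.log_pow]
          norm_num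
        have h4 : Real.log 4 = 2 * Real.log 2 := by
          rw [show (4 : ℝ) = 2 ^ 2 by norm_num, Real.log_pow]
          norm_num
        rw [h3, h4] at h2
        have h5 := Real.log_two_lt_d9
        have h6 := Real.log_two_gt_d9
        have h7 : e * Real.log n ≤ e * (5 * Real.log 2 + 1 / e * (2 * Real.log 2)) :=
          mul_le_mul_of_nonneg_left h2.le he0
        have h8 : e * (5 * Real.log 2 + 1 / e * (2 * Real.log 2)) =
            5 * e * Real.log 2 + 2 * Real.log 2 := by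
          field_simp
        have h9 : 5 * e * Real.log 2 ≤ 5 * (1 / 100) * 1 := by
          have : Real.log 2 ≤ 1 := by linarith
          gcongr
        linarith
    have hpow : (n : ℝ) ^ (2 * p - 1) ≤ Real.exp 4 * (n : ℝ) ^ (-(1 / 2) : ℝ) := by
      rw [Real.rpow_def_of_pos hn0, Real.rpow_def_of_pos hn0, ← Real.exp_add]
      refine Real.exp_le_exp.2 ?_
      rw [hpe]
      nlinarith
    have hY : 0 < (n : ℝ) ^ (-(1 / 2) : ℝ) := Real.rpow_pos_of_pos hn0 _
    have hsl : 1 / Real.sqrt s ≤ Real.sqrt (Real.log n) := by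
      have h1 : 1 / Real.sqrt (Real.log n) ≤ Real.sqrt s := by
        rw [one_div, ← Real.sqrt_inv]
        refine Real.sqrt_le_sqrt ?_
        rw [← one_div]
        linarith
      have h2 : 0 < Real.sqrt (Real.log n) := Real.sqrt_pos.2 hlog
      rw [div_le_iff₀ hss]
      rw [div_le_iff₀ h2] at h1
      linarith
    have hmono := A_mono (p := 1 / 4) (by norm_num) hp hp1 n
    have hstep : c / Real.sqrt s * (n : ℝ) ^ (2 * p - 1) ≤
        c * Real.exp 4 * Real.sqrt (Real.log n) * (n : ℝ) ^ (-(1 / 2) : ℝ) := by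
      calc c / Real.sqrt s * (n : ℝ) ^ (2 * p - 1) =
          c * (1 / Real.sqrt s) * (n : ℝ) ^ (2 * p - 1) := by ring
        _ ≤ c * Real.sqrt (Real.log n) * (Real.exp 4 * (n : ℝ) ^ (-(1 / 2) : ℝ)) := by
          gcongr
        _ = _ := by ring
    rcases le_or_gt 200 (Real.log n) with h200 | h200
    · refine le_trans (ENNReal.ofReal_le_ofReal ?_) ((H1 n h200).trans hmono)
      refine hstep.trans ?_
      gcongr
    · have hb := base (p := 1 / 4) le_rfl (by norm_num) hn1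
      refine le_trans (ENNReal.ofReal_le_ofReal ?_) (hb.trans hmono)
      have h1 : Real.sqrt (Real.log n) ≤ 15 := by
        rw [Real.sqrt_le_left (by norm_num)]
        linarith
      have h2 : (2 * (1 / 4 : ℝ) - 1) = -(1 / 2) := by norm_num
      rw [h2]
      refine hstep.trans ?_
      have h3 : c * Real.exp 4 * Real.sqrt (Real.log n) ≤ 1 / 10 ^ 9 * 100 * 15 := by
        gcongr
      have h4 : c * Real.exp 4 * Real.sqrt (Real.log n) ≤ 1 / 2 := h3.trans (by norm_num)
      gcongr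

end KQT
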