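import Pool.Agent.KQT.Ar
import Pool.Agent.KQT.Cf
import Pool.Agent.KQT.Cg
import Pool.Agent.KQB.Near

set_option autoImplicit false

/-!
# KQT QU : the lower bound at `p = 1/4`

As `KQB.near` with `G2` in place of `KQB.GG`, `p = 1/4`, `δ = 2/log n`, `m = ⌊1/(2δ)⌋₊`.
-/

open Filter Topology Metric Set

namespace KQT

private theorem qu_zero {ε δ : ℝ} {k0 k1 : ℕ} (h : KQB.Par ε δ k0 k1) {n : ℕ} (hn : 1 ≤ n) :
    0 < ‖G2 ε δ k0 k1 n‖ ∧ ‖G2 ε δ k0 k1 n‖ ≤ 3 / 2 * (n : ℝ) ^ (-(1 / 2 - 2 * δ)) := by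
  have he1 := h.he1
  have hδ := h.he
  have hn0 : (0 : ℝ) < n := by exact_mod_cast hn
  have hre : 0 < (n : ℂ).re := by simpa using hn0
  have h1 := gg_bd2 h.hε.le hδ.le (show δ ≤ 1 / 8 by linarith) (k1 := k1) h.hk hre
  have h2 := F2_norm δ hre
  have hnn : ‖(n : ℂ)‖ = n := by simp
  rw [hnn] at h2
  have h3 : 0 < ‖F2 δ n‖ := by
    rw [h2]
    exact Real.rpow_pos_of_pos hn0 _
  have h4 : 7 * ε * Real.sqrt ((1 / 2 : ℝ) ^ k0) ≤ 1 / 20000 := by
    have := h.h1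
    linarith
  have h5 : ‖KQB.gg ε 0 k0 k1 n‖ ≤ 1 / 20000 * ‖F2 δ n‖ :=
    h1.trans (mul_le_mul_of_nonneg_right h4 h3.le)
  unfold G2
  constructor
  · have h6 := norm_sub_norm_le (F2 δ n) (-KQB.gg ε 0 k0 k1 n)
    rw [norm_neg, sub_neg_eq_add] at h6
    linarith
  · have h6 := norm_add_le (F2 δ n) (KQB.gg ε 0 k0 k1 n)
    rw [← h2]
    linarith

theorem quarter : ∃ c : ℝ, 0 < c ∧ ∀ n : ℕ, 200 ≤ Real.log n →
    ENNReal.ofReal (c * Real.sqrt (Real.log n) * (n : ℝ) ^ (-(1 / 2) : ℝ)) ≤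
      MPV.A (1 / 4) n := by
  refine ⟨1 / 10 ^ 10, by norm_num, fun n hlog => ?_⟩
  have hn1 : 1 ≤ n := by
    rcases Nat.eq_zero_or_pos n with h | h
    · rw [h, Nat.cast_zero, Real.log_zero] at hlog
      norm_num at hlog
    · exact h
  have hn0 : (0 : ℝ) < n := by exact_mod_cast hn1
  set l : ℝ := Real.log n with hl
  have hl0 : 0 < l := by linarith
  set δ : ℝ := 2 / l with hδ
  have hδ0 : 0 < δ := by positivity
  have hδ1 : δ ≤ 1 / 100 := by
    rw [hδ, div_le_div_iff₀ hl0 (by norm_num)]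
    linarith
  have hδl : 1 / (2 * δ) = l / 4 := by
    rw [hδ]
    field_simp
    norm_num
  obtain ⟨m, hm⟩ : ∃ m, m = ⌊1 / (2 * δ)⌋₊ := ⟨_, rfl⟩
  obtain ⟨hP, hm1, hm2⟩ := KQB.fin_par hδ0 hδ1 hm
  rw [hδl] at hm1 hm2
  set ε := Real.sqrt δ / 4000 with hε
  have hs : 0 < Real.sqrt δ := Real.sqrt_pos.2 hδ0
  have hall : ∀ k ∈ Finset.Icc m (2 * m),
      ∃ r : ℝ, 1 / (4200 * n) ≤ r ∧
        MPV.coef (fun z => KQB.gk ((1 / 2 : ℝ) ^ k) (n * (1 - z))) n = (r : ℂ) := by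
    intro k hk
    have hk1 : 1 ≤ k := by
      have := hP.hk
      have := (Finset.mem_Icc.1 hk).1
      omega
    have hk2 : (k : ℝ) ≤ 2 * m := by
      have := (Finset.mem_Icc.1 hk).2
      exact_mod_cast this
    refine coef_gk (by positivity) ?_ ?_
    · calc (1 / 2 : ℝ) ^ k ≤ (1 / 2) ^ 1 := pow_le_pow_of_le_one (by norm_num) (by norm_num) hk1
        _ = 1 / 2 := by norm_num
    · have h1 : (n : ℝ) * ((1 / 2 : ℝ) ^ k) ^ 2 = Real.exp (l - 2 * k * Real.log 2) := by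
        have h0 : Real.exp (2 * k * Real.log 2) = ((2 : ℝ) ^ k) ^ 2 := by
          rw [show 2 * (k : ℝ) * Real.log 2 = ((k * 2 : ℕ) : ℝ) * Real.log 2 by
            push_cast; ring, Real.exp_nat_mul, Real.exp_log (by norm_num), pow_mul]
        rw [Real.exp_sub, h0, hl, Real.exp_log hn0, one_div, inv_pow, inv_pow, div_eq_mul_inv]
      rw [h1]
      have h2 := Real.log_two_lt_d9
      have h2' : 0 < Real.log 2 := Real.log_pos (by norm_num)
      have h3 : 2 * (k : ℝ) * Real.log 2 ≤ l * (7 / 10) := by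
        apply mul_le_mul (by linarith) (by linarith) h2'.le hl0.le
      have h4 := Real.add_one_le_exp (l - 2 * k * Real.log 2)
      linarith
  obtain ⟨hz1, hz2⟩ := qu_zero hP hn1
  have hGd : DifferentiableOn ℂ (G2 ε δ m (2 * m)) {u | 0 < u.re} :=
    (F2_diff δ).add (KQB.gg_diff ε 0 m (2 * m))
  set C : ℝ := ‖G2 ε δ m (2 * m) n‖⁻¹ with hC
  have hC0 : 0 < C := inv_pos.2 hz1
  have hmem : (fun z => (C : ℂ) * G2 ε δ m (2 * m) (n * (1 - z))) ∈ MPV.S (1 / 4) := by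
    refine ⟨(KQB.fin_comp hGd hn1).const_mul _, ?_, ?_⟩
    · have := KQB.mv_disc (p := 1 / 4) hGd (fun R hR => area_G2 hP hR) hn0 hC0
      simpa using this
    · rw [KQB.fin_mu (by norm_num)]
      simp only [sub_zero, mul_one, norm_mul, Complex.norm_real, Real.norm_eq_abs,
        abs_of_pos hC0]
      exact inv_mul_cancel₀ hz1.ne'
  have hle : ENNReal.ofReal ‖MPV.coef (fun z => (C : ℂ) * G2 ε δ m (2 * m) (n * (1 - z))) n‖ ≤
      MPV.A (1 / 4) n := by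
    unfold MPV.A
    exact le_iSup₂ (f := fun (f : ℂ → ℂ) (_ : f ∈ MPV.S (1 / 4)) =>
      ENNReal.ofReal ‖MPV.coef f n‖) _ hmem
  refine le_trans (ENNReal.ofReal_le_ofReal ?_) hle
  -- the coefficient
  have hdk : ∀ k ∈ Finset.Icc m (2 * m),
      DifferentiableOn ℂ (fun z => KQB.gk ((1 / 2 : ℝ) ^ k) (n * (1 - z))) (ball 0 1) :=
    fun k _ => KQB.fin_comp (KQB.gk_diff (by positivity)) hn1
  obtain ⟨r0, hr0, hr0'⟩ := coef_F2 (δ := δ) (by linarith) hn1 n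
  choose! r hr1 hr2 using hall
  have hcoef : MPV.coef (fun z => (C : ℂ) * G2 ε δ m (2 * m) (n * (1 - z))) n =
      ((C * (r0 + ε * ∑ k ∈ Finset.Icc m (2 * m), r k) : ℝ) : ℂ) := by
    rw [KQB.fin_coef_smul (KQB.fin_comp hGd hn1)]
    have e0 : ε * ((2 : ℝ) ^ (2 * m)) ^ (-(2 * (0 : ℝ))) = ε := by
      rw [mul_zero, neg_zero, Real.rpow_zero, mul_one]
    have e1 : (fun z : ℂ => G2 ε δ m (2 * m) (n * (1 - z))) = fun z =>
        F2 δ (n * (1 - z)) + (ε : ℂ) * ∑ k ∈ Finset.Icc m (2 * m),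
          KQB.gk ((1 / 2 : ℝ) ^ k) (n * (1 - z)) := by
      funext z
      unfold G2 KQB.gg
      rw [e0]
    have hsd : DifferentiableOn ℂ (fun z => ∑ k ∈ Finset.Icc m (2 * m),
        KQB.gk ((1 / 2 : ℝ) ^ k) (n * (1 - z))) (ball 0 1) := DifferentiableOn.fun_sum hdk
    rw [e1, KQB.fin_coef_add (KQB.fin_comp (F2_diff δ) hn1) (hsd.const_mul _),
      KQB.fin_coef_smul hsd, KQB.fin_coef_sum hdk]
    have e2 : MPV.coef (fun z => F2 δ (n * (1 - z))) n = (r0 : ℂ) := by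
      exact hr0'
    rw [e2, Finset.sum_congr rfl hr2]
    push_cast
    ring
  rw [hcoef, Complex.norm_real, Real.norm_eq_abs]
  refine le_trans ?_ (le_abs_self _)
  have hsum : ((m : ℝ) + 1) * (1 / (4200 * n)) ≤ ∑ k ∈ Finset.Icc m (2 * m), r k := by
    have := Finset.card_nsmul_le_sum (Finset.Icc m (2 * m)) r (1 / (4200 * n)) hr1
    rw [Nat.card_Icc, nsmul_eq_mul] at this
    have e3 : ((2 * m + 1 - m : ℕ) : ℝ) = (m : ℝ) + 1 := by
      rw [show 2 * m + 1 - m = m + 1 by omega]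
      push_cast
      ring
    rwa [e3] at this
  have hpow : (n : ℝ) ^ (-(1 / 2 - 2 * δ)) = Real.exp 4 * (n : ℝ) ^ (-(1 / 2) : ℝ) := by
    rw [show -(1 / 2 - 2 * δ) = 2 * δ + (-(1 / 2) : ℝ) by ring, Real.rpow_add hn0]
    congr 1
    rw [Real.rpow_def_of_pos hn0]
    congr 1
    rw [← hl, hδ]
    field_simp
    norm_num
  have he4 : Real.exp 4 ≤ 60 := by
    have h1 := Real.exp_one_lt_d9
    have h2 : Real.exp 4 = Real.exp 1 ^ 4 := by
      rw [← Real.exp_nat_mul]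
      norm_num
    rw [h2]
    have h3 := Real.exp_pos 1
    calc Real.exp 1 ^ 4 ≤ 2.72 ^ 4 := pow_le_pow_left₀ h3.le (by linarith) 4
      _ ≤ 60 := by norm_num
  set Y : ℝ := (n : ℝ) ^ (-(1 / 2) : ℝ) with hY
  have hY0 : 0 < Y := Real.rpow_pos_of_pos hn0 _
  have hYY : Y * Y = 1 / n := by
    rw [hY, ← Real.rpow_add hn0, show (-(1 / 2) : ℝ) + (-(1 / 2) : ℝ) = -1 by norm_num,
      Real.rpow_neg_one, one_div]
  have hCl : 1 / (90 * Y) ≤ C := by
    rw [hC, one_div]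
    apply inv_anti₀ hz1
    refine hz2.trans ?_
    rw [hpow]
    nlinarith
  have hsl : 1 / Real.sqrt l ≤ Real.sqrt δ := by
    rw [← Real.sqrt_one, ← Real.sqrt_div (by norm_num)]
    apply Real.sqrt_le_sqrt
    rw [hδ]
    apply div_le_div_of_nonneg_right (by norm_num) hl0.le
  have hsl0 : 0 < Real.sqrt l := Real.sqrt_pos.2 hl0
  have hll : Real.sqrt l * Real.sqrt l = l := Real.mul_self_sqrt hl0.le
  calc 1 / 10 ^ 10 * Real.sqrt l * Y
      ≤ 1 / (90 * Y) * ((1 / Real.sqrt l / 4000) * (l / 4 * (1 / (4200 * n)))) := by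
        have e5 : 1 / (90 * Y) * ((1 / Real.sqrt l / 4000) * (l / 4 * (1 / (4200 * n)))) =
            1 / 6048000000 * Real.sqrt l * Y := by
          have e6 : (1 : ℝ) / (4200 * n) = Y * Y / 4200 := by
            rw [hYY]
            field_simp
          rw [e6]
          nth_rw 2 [← hll]
          field_simp
          norm_num
        rw [e5]
        have : 0 < Real.sqrt l * Y := by positivity
        nlinarith
    _ ≤ C * (ε * (((m : ℝ) + 1) * (1 / (4200 * n)))) := by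
        rw [hε]
        gcongr
    _ ≤ C * (ε * ∑ k ∈ Finset.Icc m (2 * m), r k) := by
        have : 0 ≤ ε := by positivity
        gcongr
    _ ≤ C * (r0 + ε * ∑ k ∈ Finset.Icc m (2 * m), r k) := by
        gcongr
        linarith

end KQT
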