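import Mathlib

set_option autoImplicit false

/-!
# KQT SR : `KQU.sum_real` with the transition

Copy `Pool/Agent/KQU/Sr.lean`; the geometric sum `S = ∑_{j<J} e^{2αj}`, `α = 1 - 1/(4p) ≥ 0`, has
`S ≤ J e^{2αJ}` and `(e^{2α} - 1) S ≤ e^{2αJ}`, `e^{2α} - 1 ≥ 2α ≥ 2 (p - 1/4)`, hence
`(p - 1/4 + 1/J) S ≤ (1/2 + 1) e^{2αJ}`.
-/

open Finset

namespace KQT

/-- telescoping: `∑ b_j exp (-B_j / 400) ≤ 400 exp (K / 400)` -/
private theorem num_tel {K : ℝ} (b : ℕ → ℝ) (h0 : ∀ j, 0 ≤ b j) (hK : ∀ j, b j ≤ K) (J : ℕ) :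
    ∑ j ∈ Finset.range J, b j * Real.exp (-(∑ i ∈ Finset.range j, b i) / 400) ≤
      400 * Real.exp (K / 400) *
        (1 - Real.exp (-(∑ i ∈ Finset.range J, b i) / 400)) := by
  induction J with
  | zero => simp
  | succ J ih =>
    rw [Finset.sum_range_succ, Finset.sum_range_succ (fun i => b i)]
    have h1 : b J * Real.exp (-(∑ i ∈ Finset.range J, b i) / 400) ≤
        400 * Real.exp (K / 400) * (Real.exp (-(∑ i ∈ Finset.range J, b i) / 400) -
          Real.exp (-(∑ i ∈ Finset.range J, b i + b J) / 400)) := by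
      have e1 : Real.exp (-(∑ i ∈ Finset.range J, b i + b J) / 400) =
          Real.exp (-(∑ i ∈ Finset.range J, b i) / 400) * Real.exp (-(b J / 400)) := by
        rw [← Real.exp_add]
        congr 1
        ring
      rw [e1]
      have h2 : b J / 400 ≤ Real.exp (K / 400) * (1 - Real.exp (-(b J / 400))) := by
        have h3 : b J / 400 ≤ Real.exp (b J / 400) * (1 - Real.exp (-(b J / 400))) := by
          rw [mul_sub, mul_one, ← Real.exp_add, add_neg_cancel, Real.exp_zero]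
          linarith [Real.add_one_le_exp (b J / 400)]
        refine h3.trans (mul_le_mul_of_nonneg_right (Real.exp_le_exp.2 ?_) ?_)
        · linarith [hK J]
        · have := Real.exp_le_one_iff.2 (show -(b J / 400) ≤ 0 by linarith [h0 J])
          linarith
      have h4 := mul_le_mul_of_nonneg_left h2
        (Real.exp_pos (-(∑ i ∈ Finset.range J, b i) / 400)).le
      nlinarith [h4]
    linarith

/-- geometric sum -/
private theorem num_geo {α : ℝ} (hα : 0 < α) (J : ℕ) :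
    ∑ j ∈ Finset.range J, Real.exp (j * α) ^ 2 ≤ Real.exp (J * α) ^ 2 / (2 * α) := by
  induction J with
  | zero => simp; positivity
  | succ J ih =>
    rw [Finset.sum_range_succ]
    have e1 : Real.exp (((J + 1 : ℕ) : ℝ) * α) ^ 2 = Real.exp (J * α) ^ 2 * Real.exp (2 * α) := by
      rw [← Real.exp_nat_mul, ← Real.exp_nat_mul, ← Real.exp_add]
      congr 1
      push_cast
      ring
    have h1 : 1 + 2 * α ≤ Real.exp (2 * α) := by linarith [Real.add_one_le_exp (2 * α)]
    have h2 : 0 < Real.exp (J * α) ^ 2 := by positivity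
    rw [e1]
    calc ∑ j ∈ Finset.range J, Real.exp (j * α) ^ 2 + Real.exp (J * α) ^ 2
        ≤ Real.exp (J * α) ^ 2 / (2 * α) + Real.exp (J * α) ^ 2 := by linarith
      _ = Real.exp (J * α) ^ 2 * (1 + 2 * α) / (2 * α) := by
        field_simp
      _ ≤ _ := by gcongr

/-- geometric sum, both bounds at once -/
private theorem num_geo2 {α : ℝ} (hα : 0 ≤ α) {J : ℕ} (hJ : 1 ≤ J) :
    (α + 1 / J) * ∑ j ∈ Finset.range J, Real.exp (j * α) ^ 2 ≤ 3 / 2 * Real.exp (J * α) ^ 2 := by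
  have hJ0 : (0 : ℝ) < J := by exact_mod_cast (by omega : 0 < J)
  set S := ∑ j ∈ Finset.range J, Real.exp (j * α) ^ 2 with hS
  have h1 : α * S ≤ 1 / 2 * Real.exp (J * α) ^ 2 := by
    rcases hα.eq_or_lt with h | h
    · rw [← h, zero_mul]; positivity
    · have h2 := mul_le_mul_of_nonneg_left (num_geo h J) h.le
      refine h2.trans (le_of_eq ?_)
      field_simp
  have h2 : S ≤ J * Real.exp (J * α) ^ 2 := by
    have h3 : S ≤ ∑ _j ∈ Finset.range J, Real.exp (J * α) ^ 2 := by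
      refine Finset.sum_le_sum fun j hj => ?_
      have hj' : (j : ℝ) ≤ J := by exact_mod_cast (Finset.mem_range.mp hj).le
      exact pow_le_pow_left₀ (Real.exp_pos _).le
        (Real.exp_le_exp.2 (mul_le_mul_of_nonneg_right hj' hα)) 2
    rwa [Finset.sum_const, Finset.card_range, nsmul_eq_mul] at h3
  have h3 : 1 / (J : ℝ) * S ≤ Real.exp (J * α) ^ 2 := by
    have h4 := mul_le_mul_of_nonneg_left h2 (by positivity : (0 : ℝ) ≤ 1 / J)
    refine h4.trans (le_of_eq ?_)
    field_simp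
  have e1 : (α + 1 / J) * S = α * S + 1 / (J : ℝ) * S := by ring
  rw [e1]
  linarith

/-- the numerical sum -/
private theorem num_sum {K α : ℝ} (hα : 0 ≤ α) (b : ℕ → ℝ) (h0 : ∀ j, 0 ≤ b j)
    (hK : ∀ j, b j ≤ K) {J : ℕ} (hJ : 1 ≤ J) :
    ∑ j ∈ Finset.range J, Real.exp (j * α) *
        (√(b j) * Real.exp (-(∑ i ∈ Finset.range j, b i) / 800)) ≤
      √(600 * Real.exp (K / 400)) / √(α + 1 / J) * Real.exp (J * α) := by
  have hJ0 : (0 : ℝ) < J := by exact_mod_cast (by omega : 0 < J)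
  have hs : 0 < α + 1 / J := by positivity
  have h1 := Finset.sum_mul_sq_le_sq_mul_sq (Finset.range J) (fun j : ℕ => Real.exp (j * α))
    (fun j => √(b j) * Real.exp (-(∑ i ∈ Finset.range j, b i) / 800))
  have h2 : ∑ j ∈ Finset.range J,
      (√(b j) * Real.exp (-(∑ i ∈ Finset.range j, b i) / 800)) ^ 2 ≤
        400 * Real.exp (K / 400) := by
    have e : ∀ j ∈ Finset.range J,
        (√(b j) * Real.exp (-(∑ i ∈ Finset.range j, b i) / 800)) ^ 2 =
        b j * Real.exp (-(∑ i ∈ Finset.range j, b i) / 400) := by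
      intro j _
      rw [mul_pow, Real.sq_sqrt (h0 j), ← Real.exp_nat_mul]
      congr 2
      push_cast
      ring
    rw [Finset.sum_congr rfl e]
    refine (num_tel b h0 hK J).trans ?_
    have h3 := Real.exp_pos (-(∑ i ∈ Finset.range J, b i) / 400)
    have h4 : 0 < 400 * Real.exp (K / 400) := by positivity
    nlinarith
  have h3 : ∑ j ∈ Finset.range J, Real.exp (j * α) ^ 2
      ≤ 3 / 2 * Real.exp (J * α) ^ 2 / (α + 1 / J) := by
    rw [le_div_iff₀ hs, mul_comm]
    exact num_geo2 hα hJ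
  have h5 : (∑ j ∈ Finset.range J, Real.exp (j * α) *
      (√(b j) * Real.exp (-(∑ i ∈ Finset.range j, b i) / 800))) ^ 2 ≤
      (√(600 * Real.exp (K / 400)) / √(α + 1 / J) * Real.exp (J * α)) ^ 2 := by
    refine h1.trans ?_
    have h6 : (∑ j ∈ Finset.range J, Real.exp (j * α) ^ 2) *
        (∑ j ∈ Finset.range J,
          (√(b j) * Real.exp (-(∑ i ∈ Finset.range j, b i) / 800)) ^ 2) ≤
        3 / 2 * Real.exp (J * α) ^ 2 / (α + 1 / J) * (400 * Real.exp (K / 400)) :=
      mul_le_mul h3 h2 (Finset.sum_nonneg fun j _ => sq_nonneg _) (by positivity)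
    refine h6.trans (le_of_eq ?_)
    rw [mul_pow, div_pow, Real.sq_sqrt (by positivity), Real.sq_sqrt hs.le]
    ring
  exact (pow_le_pow_iff_left₀ (Finset.sum_nonneg fun j _ => by positivity) (by positivity)
    two_ne_zero).1 h5

theorem sum_real : ∃ C : ℝ, 0 < C ∧ ∀ p : ℝ, 1 / 4 ≤ p → p ≤ 1 → ∀ b : ℕ → ℝ,
    (∀ j, 0 ≤ b j) → (∀ j, b j ≤ 16) → ∀ J : ℕ, 1 ≤ J →
      ∑ j ∈ range J, Real.exp (j * (1 - 1 / (4 * p))) * Real.sqrt (b j) *
        Real.exp (-(∑ i ∈ range j, b i) / (800 * p)) ≤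
      C / Real.sqrt (p - 1 / 4 + 1 / J) * Real.exp (J * (1 - 1 / (4 * p))) := by
  refine ⟨√(600 * Real.exp (16 / 400)), by positivity, fun p hp hp1 b h0 h16 J hJ => ?_⟩
  have hJ0 : (0 : ℝ) < J := by exact_mod_cast (by omega : 0 < J)
  have hp0 : 0 < p := by linarith
  have e1 : 1 - 1 / (4 * p) = (p - 1 / 4) / p := by
    field_simp
  have hα : p - 1 / 4 ≤ 1 - 1 / (4 * p) := by
    rw [e1, le_div_iff₀ hp0]
    nlinarith
  have hα0 : 0 ≤ 1 - 1 / (4 * p) := by linarith
  have h1 := num_sum (K := 16) hα0 b h0 h16 hJ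
  have h2 : ∑ j ∈ range J, Real.exp (j * (1 - 1 / (4 * p))) * Real.sqrt (b j) *
        Real.exp (-(∑ i ∈ range j, b i) / (800 * p)) ≤
      ∑ j ∈ range J, Real.exp (j * (1 - 1 / (4 * p))) *
        (√(b j) * Real.exp (-(∑ i ∈ range j, b i) / 800)) := by
    refine sum_le_sum fun j _ => ?_
    rw [mul_assoc]
    have h3 : -(∑ i ∈ range j, b i) / (800 * p) ≤ -(∑ i ∈ range j, b i) / 800 := by
      have h4 : 0 ≤ ∑ i ∈ range j, b i := sum_nonneg fun i _ => h0 i
      rw [neg_div, neg_div, neg_le_neg_iff]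
      exact div_le_div_of_nonneg_left h4 (by positivity) (by linarith)
    have h5 := Real.exp_le_exp.2 h3
    gcongr
  refine h2.trans (h1.trans ?_)
  have h6 : √(p - 1 / 4 + 1 / J) ≤ √(1 - 1 / (4 * p) + 1 / J) :=
    Real.sqrt_le_sqrt (by linarith)
  have hJ1 : (0 : ℝ) < 1 / J := by positivity
  have h7 : 0 < √(p - 1 / 4 + 1 / J) := Real.sqrt_pos.2 (by linarith)
  exact mul_le_mul_of_nonneg_right (div_le_div_of_nonneg_left (by positivity) h7 h6)
    (Real.exp_pos _).le

end KQT
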